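import Pool.Agent.E8helper72.HR.Crit

/-!
# The case where the cone splits off the vertical direction
-/

set_option autoImplicit false

open MeasureTheory Set Filter Topology
open Pool.Agent.Results.MP_530d8e_an.HorizontallyRigid

namespace H72HR

theorem un_zero (c : ℝ) : un (0 : ℂ) c = e0 := by
  have h1 : sc (0 : ℂ) c = 1 := by
    rw [sc, inner_zero_left, mul_zero, add_zero, Real.sqrt_one]
  rw [un, h1, inv_one, one_smul, smul_zero, neg_zero]
  rfl

theorem ray_symm {K K' : Set (V ℂ)} {R : V ℂ ≃ₗᵢ[ℝ] V ℂ} (hK : ∀ w, w ∈ K ↔ R w ∈ K') {u : V ℂ}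
    (hu : RaySummand K' u) : RaySummand K (R.symm u) := by
  refine ⟨by rw [LinearIsometryEquiv.norm_map]; exact hu.1, ?_, fun w hw => ?_⟩
  · rw [hK, LinearIsometryEquiv.apply_symm_apply]
    exact hu.2.1
  · have h1 := hu.2.2 _ ((hK w).1 hw)
    have e1 : (inner ℝ (R.symm u) w : ℝ) = inner ℝ u (R w) := by
      rw [← R.inner_map_map, LinearIsometryEquiv.apply_symm_apply]
    rw [e1]
    refine ⟨h1.1, ?_⟩
    rw [hK, map_sub, map_smul, LinearIsometryEquiv.apply_symm_apply]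
    exact h1.2

theorem finrank_V : Module.finrank ℝ (V ℂ) = 3 := by
  have h1 : Module.finrank ℝ (V ℂ) = Module.finrank ℝ (ℂ × ℝ) :=
    LinearEquiv.finrank_eq (WithLp.linearEquiv 2 ℝ (ℂ × ℝ))
  rw [h1, Module.finrank_prod, Complex.finrank_real_complex, Module.finrank_self]

theorem expand {a b : V ℂ} (ha : ‖a‖ = 1) (hb : ‖b‖ = 1) (h0a : inner ℝ (e0 : V ℂ) a = (0 : ℝ))
    (h0b : inner ℝ (e0 : V ℂ) b = (0 : ℝ)) (hab : inner ℝ a b = (0 : ℝ)) (w : V ℂ) :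
    w = (inner ℝ (e0 : V ℂ) w : ℝ) • e0 + (inner ℝ a w : ℝ) • a + (inner ℝ b w : ℝ) • b := by
  have hon : Orthonormal ℝ ![(e0 : V ℂ), a, b] := by
    refine ⟨?_, ?_⟩
    · intro i
      fin_cases i
      · exact norm_e0
      · exact ha
      · exact hb
    · intro i j hij
      fin_cases i <;> fin_cases j
      · exact absurd rfl hij
      · exact h0a
      · exact h0b
      · show inner ℝ a (e0 : V ℂ) = (0 : ℝ)
        rw [real_inner_comm]; exact h0a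
      · exact absurd rfl hij
      · exact hab
      · show inner ℝ b (e0 : V ℂ) = (0 : ℝ)
        rw [real_inner_comm]; exact h0b
      · show inner ℝ b a = (0 : ℝ)
        rw [real_inner_comm]; exact hab
      · exact absurd rfl hij
  have hcard : Fintype.card (Fin 3) = Module.finrank ℝ (V ℂ) := by
    rw [finrank_V, Fintype.card_fin]
  have hb' : Orthonormal ℝ (basisOfOrthonormalOfCardEqFinrank hon hcard) := by
    rw [coe_basisOfOrthonormalOfCardEqFinrank]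
    exact hon
  have hsum := ((basisOfOrthonormalOfCardEqFinrank hon hcard).toOrthonormalBasis hb').sum_repr' w
  rw [Fin.sum_univ_three] at hsum
  simp only [Module.Basis.coe_toOrthonormalBasis, coe_basisOfOrthonormalOfCardEqFinrank] at hsum
  exact hsum.symm

theorem case_same {f : ℂ → ℝ} (hf : Continuous f) {c ε : ℝ} (hc : 0 < c) (hc1 : c ≠ 1)
    (hε : ε = 1 ∨ ε = -1) {φ : V ℂ ≃ᵢ V ℂ} {R : V ℂ ≃ₗᵢ[ℝ] V ℂ}
    (hφ : φ '' graph f = graph fun x => f (c • x))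
    (hR : ∀ p w, φ (p + w) = φ p + ε • R w) (he : R.symm e0 = e0) : ∀ x y, f x = f y := by
  have hε0 : ε ≠ 0 := by rcases hε with rfl | rfl <;> norm_num
  have hεa : |ε| = 1 := by rcases hε with rfl | rfl <;> norm_num
  have hRe : R e0 = e0 := by
    conv_lhs => rw [← he]
    exact R.apply_symm_apply _
  refine crit hf (MM_mem hc.ne' hε0 hφ hR) hc hc1 hεa ?_ fun x => ?_
  · rw [MM_apply, hRe]
    refine ext_mk ?_ ?_
    · show c • (ε • (0 : ℂ)) = ε • (0 : ℂ)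
      rw [smul_zero, smul_zero]
    · rfl
  · have h1 : (R (mk x 0)).snd = 0 := by
      rw [snd_eq_inner]
      conv_lhs => rw [← hRe]
      rw [R.inner_map_map, ← snd_eq_inner]
      rfl
    have h2 : ‖(R (mk x 0)).fst‖ = ‖x‖ := by
      have e1 : ‖R (mk x 0)‖ ^ 2 = ‖(R (mk x 0)).fst‖ ^ 2 := by
        rw [← real_inner_self_eq_norm_sq, inner_V, h1, real_inner_self_eq_norm_sq]
        ring
      have e2 : ‖R (mk x 0)‖ ^ 2 = ‖x‖ ^ 2 := by
        rw [R.norm_map, ← real_inner_self_eq_norm_sq, inner_V, mk_fst, mk_snd,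
          real_inner_self_eq_norm_sq]
        ring
      rw [e1] at e2
      exact (pow_left_inj₀ (norm_nonneg _) (norm_nonneg _) two_ne_zero).1 e2
    rw [MM_apply]
    refine ⟨?_, ?_⟩
    · rw [mk_snd, h1, mul_zero]
    · rw [mk_fst, norm_smul, norm_smul, h2, Real.norm_of_nonneg hc.le, Real.norm_eq_abs, hεa,
        one_mul]

theorem case_pair {f : ℂ → ℝ} (hf : Continuous f) {c ε c' ε' : ℝ} (hc : 0 < c) (hc' : 0 < c')
    (hcc : c ≠ c') (hε : ε = 1 ∨ ε = -1) (hε' : ε' = 1 ∨ ε' = -1) {φ φ' : V ℂ ≃ᵢ V ℂ}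
    {R R' : V ℂ ≃ₗᵢ[ℝ] V ℂ}
    (hφ : φ '' graph f = graph fun x => f (c • x))
    (hφ' : φ' '' graph f = graph fun x => f (c' • x))
    (hR : ∀ p w, φ (p + w) = φ p + ε • R w) (hR' : ∀ p w, φ' (p + w) = φ' p + ε' • R' w)
    (he : R.symm e0 = R'.symm e0) : ∀ x y, f x = f y := by
  have hε0 : ε ≠ 0 := by rcases hε with rfl | rfl <;> norm_num
  have hεa : |ε| = 1 := by rcases hε with rfl | rfl <;> norm_num
  have hε0' : ε' ≠ 0 := by rcases hε' with rfl | rfl <;> norm_num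
  have hεa' : |ε'| = 1 := by rcases hε' with rfl | rfl <;> norm_num
  set M := MM c ε hc.ne' hε0 R with hM
  set M' := MM c' ε' hc'.ne' hε0' R' with hM'
  set v := R.symm e0 with hv
  have hRv : R v = e0 := R.apply_symm_apply _
  have hRv' : R' v = e0 := by rw [he]; exact R'.apply_symm_apply _
  have hMv : M v = ε • e0 := by
    rw [hM, MM_apply, hRv]
    refine ext_mk ?_ ?_
    · show c • (ε • (0 : ℂ)) = ε • (0 : ℂ)
      rw [smul_zero, smul_zero]
    · rfl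
  have hMv' : M' v = ε' • e0 := by
    rw [hM', MM_apply, hRv']
    refine ext_mk ?_ ?_
    · show c' • (ε' • (0 : ℂ)) = ε' • (0 : ℂ)
      rw [smul_zero, smul_zero]
    · rfl
  have hinv : ∀ x, M' (M'⁻¹ x) = x := fun x => M'.apply_symm_apply x
  have hMe' : M'⁻¹ e0 = ε'⁻¹ • v := by
    apply M'.injective
    rw [hinv, map_smul, hMv', smul_smul, inv_mul_cancel₀ hε0', one_smul]
  refine crit hf (L := M * M'⁻¹) (ρ := c / c') (s := ε'⁻¹ * ε)
    (mul_mem (MM_mem hc.ne' hε0 hφ hR) (inv_mem (MM_mem hc'.ne' hε0' hφ' hR'))) (by positivity)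
    (by rw [Ne, div_eq_one_iff_eq hc'.ne']; exact hcc)
    (by rw [abs_mul, abs_inv, hεa, hεa', inv_one, one_mul]) ?_ fun x => ?_
  · rw [LinearEquiv.mul_apply, hMe', map_smul, hMv, smul_smul]
  · set y := M'⁻¹ (mk x 0) with hy
    have h1 : M' y = mk x 0 := hinv _
    rw [hM', MM_apply] at h1
    have h2 : ε' * (R' y).snd = 0 := by
      have := congrArg (fun p : V ℂ => p.snd) h1
      exact this
    have h3 : c' • (ε' • (R' y).fst) = x := by
      have := congrArg (fun p : V ℂ => p.fst) h1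
      exact this
    have h4 : (R' y).snd = 0 := (mul_eq_zero.1 h2).resolve_left hε0'
    have h5 : inner ℝ v y = (0 : ℝ) := by
      rw [← R'.inner_map_map, hRv', ← snd_eq_inner]
      exact h4
    have h6 : (R y).snd = 0 := by
      rw [snd_eq_inner, ← hRv, R.inner_map_map]
      exact h5
    have h7 : ‖x‖ = c' * ‖(R' y).fst‖ := by
      rw [← h3, norm_smul, norm_smul, Real.norm_of_nonneg hc'.le, Real.norm_eq_abs, hεa', one_mul]
    have h8 : ∀ S : V ℂ ≃ₗᵢ[ℝ] V ℂ, (S y).snd = 0 → ‖(S y).fst‖ = ‖y‖ := by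
      intro S hS
      have e1 : ‖S y‖ ^ 2 = ‖(S y).fst‖ ^ 2 := by
        rw [← real_inner_self_eq_norm_sq, inner_V, hS, real_inner_self_eq_norm_sq]
        ring
      rw [S.norm_map] at e1
      exact ((pow_left_inj₀ (norm_nonneg _) (norm_nonneg _) two_ne_zero).1 e1).symm
    show (M y).snd = 0 ∧ ‖(M y).fst‖ = c / c' * ‖x‖
    rw [hM, MM_apply, mk_snd, mk_fst]
    refine ⟨by rw [h6, mul_zero], ?_⟩
    rw [norm_smul, norm_smul, Real.norm_of_nonneg hc.le, Real.norm_eq_abs, hεa, one_mul, h8 R h6,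
      h7, h8 R' h4]
    field_simp

/-- everything in the case where the cone splits off the vertical direction -/
theorem case_A (hoct : S_OCT) {f : ℂ → ℝ} (hf : Continuous f) (hS : Slope f 0)
    {c₁ c₂ ε₁ ε₂ : ℝ} (hc₁ : 0 < c₁) (hc₂ : 0 < c₂) (h1 : c₁ ≠ 1) (h2 : c₂ ≠ 1) (h12 : c₁ ≠ c₂)
    (hε₁ : ε₁ = 1 ∨ ε₁ = -1) (hε₂ : ε₂ = 1 ∨ ε₂ = -1) {φ₁ φ₂ : V ℂ ≃ᵢ V ℂ}
    {R₁ R₂ : V ℂ ≃ₗᵢ[ℝ] V ℂ}
    (hφ₁ : φ₁ '' graph f = graph fun x => f (c₁ • x))
    (hφ₂ : φ₂ '' graph f = graph fun x => f (c₂ • x))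
    (hR₁ : ∀ p w, φ₁ (p + w) = φ₁ p + ε₁ • R₁ w) (hR₂ : ∀ p w, φ₂ (p + w) = φ₂ p + ε₂ • R₂ w)
    (hK₁ : ∀ w, w ∈ coneK f ↔ R₁ w ∈ coneK fun x => f (c₁ • x))
    (hK₂ : ∀ w, w ∈ coneK f ↔ R₂ w ∈ coneK fun x => f (c₂ • x)) : ∀ x y, f x = f y := by
  have hε0₁ : ε₁ ≠ 0 := by rcases hε₁ with rfl | rfl <;> norm_num
  have hε0₂ : ε₂ ≠ 0 := by rcases hε₂ with rfl | rfl <;> norm_num
  have hray : ∀ c : ℝ, 0 < c → RaySummand (coneK fun x => f (c • x)) e0 := by
    intro c hc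
    have := raySummand_un hS hc
    rwa [un_zero] at this
  have hray1 : RaySummand (coneK f) e0 := by
    have := hray 1 one_pos
    simpa using this
  set a := R₁.symm e0 with ha
  set b := R₂.symm e0 with hb
  have hra : RaySummand (coneK f) a := ray_symm hK₁ (hray c₁ hc₁)
  have hrb : RaySummand (coneK f) b := ray_symm hK₂ (hray c₂ hc₂)
  have hsm : ∀ w ∈ coneK f, ∀ t : ℝ, 0 ≤ t → t • w ∈ coneK f := coneK_smul
  by_cases hae : a = e0
  · exact case_same hf hc₁ h1 hε₁ hφ₁ hR₁ hae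
  by_cases hbe : b = e0
  · exact case_same hf hc₂ h2 hε₂ hφ₂ hR₂ hbe
  by_cases hab : a = b
  · exact case_pair hf hc₁ hc₂ h12 hε₁ hε₂ hφ₁ hφ₂ hR₁ hR₂ hab
  have i1 : inner ℝ (e0 : V ℂ) a = (0 : ℝ) := raySummand_orthogonal hsm hray1 hra (Ne.symm hae)
  have i2 : inner ℝ (e0 : V ℂ) b = (0 : ℝ) := raySummand_orthogonal hsm hray1 hrb (Ne.symm hbe)
  have i3 : inner ℝ a b = (0 : ℝ) := raySummand_orthogonal hsm hra hrb hab
  have hex := expand hra.1 hrb.1 i1 i2 i3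
  have ha0 : a.snd = 0 := by rw [snd_eq_inner]; exact i1
  have hb0 : b.snd = 0 := by rw [snd_eq_inner]; exact i2
  -- the cone is an octant
  have hoc : ∀ w, w ∈ coneK f ↔ 0 ≤ inner ℝ (e0 : V ℂ) w ∧ 0 ≤ inner ℝ a w ∧ 0 ≤ inner ℝ b w := by
    intro w
    constructor
    · intro hw
      exact ⟨(hray1.2.2 w hw).1, (hra.2.2 w hw).1, (hrb.2.2 w hw).1⟩
    · rintro ⟨j1, j2, j3⟩
      rw [hex w]
      exact coneK_add _ (coneK_add _ (hsm _ hray1.2.1 _ j1) _ (hsm _ hra.2.1 _ j2)) _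
        (hsm _ hrb.2.1 _ j3)
  have hdil : ∀ (c : ℝ) (w : V ℂ), inner ℝ (e0 : V ℂ) (mk (c • w.fst) w.snd) =
      (inner ℝ (e0 : V ℂ) w : ℝ) := by
    intro c w
    rw [← snd_eq_inner, ← snd_eq_inner]
    rfl
  have hdila : ∀ (c : ℝ) (u w : V ℂ), u.snd = 0 →
      inner ℝ u (mk (c • w.fst) w.snd) = c * (inner ℝ u w : ℝ) := by
    intro c u w hu
    rw [inner_V, inner_V, mk_fst, mk_snd, inner_smul_right, hu]
    ring
  have hKc : ∀ c : ℝ, 0 < c → ∀ w, w ∈ (coneK fun x => f (c • x)) ↔ w ∈ coneK f := by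
    intro c hc w
    rw [coneK_scale hc, hoc, hoc, hdil, hdila c a w ha0, hdila c b w hb0]
    constructor
    · rintro ⟨j1, j2, j3⟩
      exact ⟨j1, (mul_nonneg_iff_of_pos_left hc).1 j2, (mul_nonneg_iff_of_pos_left hc).1 j3⟩
    · rintro ⟨j1, j2, j3⟩
      exact ⟨j1, mul_nonneg hc.le j2, mul_nonneg hc.le j3⟩
  have honly : ∀ u, RaySummand (coneK f) u → u = e0 ∨ u = a ∨ u = b := by
    intro u hu
    by_contra hcon
    push Not at hcon
    obtain ⟨k1, k2, k3⟩ := hcon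
    have j1 := raySummand_orthogonal hsm hray1 hu (Ne.symm k1)
    have j2 := raySummand_orthogonal hsm hra hu (Ne.symm k2)
    have j3 := raySummand_orthogonal hsm hrb hu (Ne.symm k3)
    have j4 := hex u
    rw [j1, j2, j3, zero_smul, zero_smul, zero_smul, add_zero, add_zero] at j4
    have j5 := hu.1
    rw [j4, norm_zero] at j5
    exact zero_ne_one j5
  -- the isometries permute the three vectors
  have hperm : ∀ {c : ℝ} {R : V ℂ ≃ₗᵢ[ℝ] V ℂ}, 0 < c →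
      (∀ w, w ∈ coneK f ↔ R w ∈ coneK fun x => f (c • x)) →
      ∀ u, RaySummand (coneK f) u → RaySummand (coneK f) (R u) := by
    intro c R hc hK u hu
    have hK' : ∀ w, w ∈ coneK f ↔ R.symm w ∈ coneK f := by
      intro w
      rw [hK (R.symm w), R.apply_symm_apply, hKc c hc]
    have := ray_symm (R := R.symm) hK' hu
    exact this
  have hMM : ∀ (c ε : ℝ) (hc : c ≠ 0) (hε : ε ≠ 0) (R : V ℂ ≃ₗᵢ[ℝ] V ℂ) (u v : V ℂ),
      R u = v → v.snd = 0 → MM c ε hc hε R u = (ε * c) • v := by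
    intro c ε hc hε R u v huv hv
    rw [MM_apply, huv]
    refine ext_mk ?_ ?_
    · show c • (ε • v.fst) = (ε * c) • v.fst
      rw [smul_smul, mul_comm]
    · show ε * v.snd = ε * c * v.snd
      rw [hv]
      ring
  have hMMe : ∀ (c ε : ℝ) (hc : c ≠ 0) (hε : ε ≠ 0) (R : V ℂ ≃ₗᵢ[ℝ] V ℂ) (u : V ℂ),
      R u = e0 → MM c ε hc hε R u = ε • e0 := by
    intro c ε hc hε R u huv
    rw [MM_apply, huv]
    refine ext_mk ?_ ?_
    · show c • (ε • (0 : ℂ)) = ε • (0 : ℂ)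
      rw [smul_zero, smul_zero]
    · rfl
  have hR₁a : R₁ a = e0 := R₁.apply_symm_apply _
  have hR₂b : R₂ b = e0 := R₂.apply_symm_apply _
  have hor₁ : (R₁ e0 = a ∧ R₁ b = b) ∨ (R₁ e0 = b ∧ R₁ b = a) := by
    have q1 := honly _ (hperm hc₁ hK₁ _ hray1)
    have q2 := honly _ (hperm hc₁ hK₁ _ hrb)
    have n1 : R₁ e0 ≠ e0 := by
      rw [← hR₁a]
      intro h
      exact hae (R₁.injective (by rw [hR₁a] at h ⊢; exact h.symm)).symm.symm
    have n2 : R₁ b ≠ e0 := by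
      intro h
      exact hab (R₁.injective (by rw [hR₁a, h]))
    have n3 : R₁ e0 ≠ R₁ b := by
      intro h
      exact hbe (R₁.injective h).symm
    rcases q1 with q1 | q1 | q1
    · exact absurd q1 n1
    · rcases q2 with q2 | q2 | q2
      · exact absurd q2 n2
      · exact absurd (q1.trans q2.symm) n3
      · exact Or.inl ⟨q1, q2⟩
    · rcases q2 with q2 | q2 | q2
      · exact absurd q2 n2
      · exact Or.inr ⟨q1, q2⟩
      · exact absurd (q1.trans q2.symm) n3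
  have hor₂ : (R₂ e0 = b ∧ R₂ a = a) ∨ (R₂ e0 = a ∧ R₂ a = b) := by
    have q1 := honly _ (hperm hc₂ hK₂ _ hray1)
    have q2 := honly _ (hperm hc₂ hK₂ _ hra)
    have n1 : R₂ e0 ≠ e0 := by
      intro h
      exact hbe (R₂.injective (by rw [hR₂b, h]))
    have n2 : R₂ a ≠ e0 := by
      intro h
      exact hab (R₂.injective (by rw [hR₂b, h]))
    have n3 : R₂ e0 ≠ R₂ a := by
      intro h
      exact hae (R₂.injective h).symm
    rcases q1 with q1 | q1 | q1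
    · exact absurd q1 n1
    · rcases q2 with q2 | q2 | q2
      · exact absurd q2 n2
      · exact absurd (q1.trans q2.symm) n3
      · exact Or.inr ⟨q1, q2⟩
    · rcases q2 with q2 | q2 | q2
      · exact absurd q2 n2
      · exact Or.inl ⟨q1, q2⟩
      · exact absurd (q1.trans q2.symm) n3
  obtain ⟨L, hL, x, y, s, hx, hy, hs, hLa, hLb, hLe⟩ := hoct (V ℂ) a b e0 (GG (graph f))
    (MM c₁ ε₁ hc₁.ne' hε0₁ R₁) (MM c₂ ε₂ hc₂.ne' hε0₂ R₂) (MM_mem hc₁.ne' hε0₁ hφ₁ hR₁)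
    (MM_mem hc₂.ne' hε0₂ hφ₂ hR₂) c₁ c₂ ε₁ ε₂ hc₁ hc₂ h1 h2 h12 hε₁ hε₂
    (hMMe _ _ _ _ _ _ hR₁a)
    (hor₁.imp (fun h => ⟨hMM _ _ _ _ _ _ _ h.1 ha0, hMM _ _ _ _ _ _ _ h.2 hb0⟩)
      (fun h => ⟨hMM _ _ _ _ _ _ _ h.1 hb0, hMM _ _ _ _ _ _ _ h.2 ha0⟩))
    (hMMe _ _ _ _ _ _ hR₂b)
    (hor₂.imp (fun h => ⟨hMM _ _ _ _ _ _ _ h.1 hb0, hMM _ _ _ _ _ _ _ h.2 ha0⟩)
      (fun h => ⟨hMM _ _ _ _ _ _ _ h.1 ha0, hMM _ _ _ _ _ _ _ h.2 hb0⟩))
  refine crit_lt hf hL (ρ := max |x| |y|) (le_max_of_le_left (abs_nonneg x)) (max_lt hx hy) hs hLe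
    fun z => ?_
  have e1 := hex (mk z 0)
  have e2 : inner ℝ (e0 : V ℂ) (mk z 0) = (0 : ℝ) := by
    rw [← snd_eq_inner]
    rfl
  set α : ℝ := inner ℝ a (mk z 0) with hα
  set β : ℝ := inner ℝ b (mk z 0) with hβ
  rw [e2, zero_smul, zero_add] at e1
  have e3 : L (mk z 0) = (α * x) • a + (β * y) • b := by
    rw [e1, map_add, map_smul, map_smul, hLa, hLb, smul_smul, smul_smul]
  have naa : inner ℝ a a = (1 : ℝ) := by rw [real_inner_self_eq_norm_sq, hra.1, one_pow]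
  have nbb : inner ℝ b b = (1 : ℝ) := by rw [real_inner_self_eq_norm_sq, hrb.1, one_pow]
  have nba : inner ℝ b a = (0 : ℝ) := by rw [real_inner_comm]; exact i3
  have hn : ∀ p q : ℝ, ‖(p • a + q • b).fst‖ ^ 2 = p ^ 2 + q ^ 2 := by
    intro p q
    have g1 : (p • a + q • b).snd = 0 := by
      show p * a.snd + q * b.snd = 0
      rw [ha0, hb0]
      ring
    have g2 : inner ℝ (p • a + q • b) (p • a + q • b) = p ^ 2 + q ^ 2 := by
      rw [inner_add_left, inner_add_right, inner_add_right]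
      simp only [inner_smul_left, inner_smul_right, conj_trivial, naa, nbb, nba, i3]
      ring
    rw [inner_V, g1, real_inner_self_eq_norm_sq] at g2
    linarith
  refine ⟨?_, ?_⟩
  · rw [e3]
    show α * x * a.snd + β * y * b.snd = 0
    rw [ha0, hb0]
    ring
  · have g1 : ‖z‖ ^ 2 = α ^ 2 + β ^ 2 := by
      have := hn α β
      rw [← e1] at this
      exact this
    have g2 : ‖(L (mk z 0)).fst‖ ^ 2 = (α * x) ^ 2 + (β * y) ^ 2 := by
      rw [e3]
      exact hn _ _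
    set ρ := max |x| |y| with hρ
    have hρ0 : 0 ≤ ρ := le_max_of_le_left (abs_nonneg x)
    have g3 : x ^ 2 ≤ ρ ^ 2 := by
      rw [← sq_abs x]
      exact pow_le_pow_left₀ (abs_nonneg x) (le_max_left _ _) 2
    have g4 : y ^ 2 ≤ ρ ^ 2 := by
      rw [← sq_abs y]
      exact pow_le_pow_left₀ (abs_nonneg y) (le_max_right _ _) 2
    have g5 : ‖(L (mk z 0)).fst‖ ^ 2 ≤ (ρ * ‖z‖) ^ 2 := by
      rw [g2, mul_pow ρ, g1]
      nlinarith [mul_le_mul_of_nonneg_left g3 (sq_nonneg α),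
        mul_le_mul_of_nonneg_left g4 (sq_nonneg β)]
    exact (pow_le_pow_iff_left₀ (norm_nonneg _) (by positivity) two_ne_zero).1 g5

end H72HR
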