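import Mathlib

/-!
# Project HR: exact statements of the pieces (MP_7fe07c_an)

Measure theoretic part. Nothing is proved here.
-/

set_option autoImplicit false

open MeasureTheory Set Real
open scoped ENNReal

namespace H72HR

/-- For a line at distance `r₁ cos u` from `0` meeting the circle of radius `r₁` at the angles
`± u` (seen from the foot), `Vr (r₁/r) u` is the angle at which it meets the circle of radius `r`. -/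
noncomputable def Vr (ρ u : ℝ) : ℝ := Real.arccos (ρ * Real.cos u)

/-- HR1. The equal level lemma (one variable). -/
def S_EQ : Prop :=
  ∀ ρ σ : ℝ, 0 < ρ → ρ < σ → σ < 1 → ∀ A B E : Set ℝ, IsCompact A → IsCompact B →
    A ⊆ Ioo (-(π / 2)) (π / 2) → B ⊆ Ioo (-(π / 2)) (π / 2) →
    (∀ α ∈ A, ∀ β ∈ B, ∀ u ∈ Icc 0 (π / 2), β - α = Vr ρ u - u → α + (Vr σ u - u) ∈ E) →
    (∀ α ∈ A, ∀ β ∈ B, ∀ u ∈ Icc 0 (π / 2), α - β = Vr ρ u - u → α - (Vr σ u - u) ∈ E) →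
    (∀ α ∈ A, ∀ β ∈ B, ∀ u ∈ Icc 0 (π / 2), β - α = Vr ρ u + u → α + 2 * u ∈ A) →
    (∀ α ∈ A, ∀ β ∈ B, ∀ u ∈ Icc 0 (π / 2), α - β = Vr ρ u + u → α - 2 * u ∈ A) →
    volume A = volume B → volume A ≤ volume E

/-- The angular measure of `K` on the circle of radius `r`. -/
noncomputable def wK (K : Set ℂ) (r : ℝ) : ℝ≥0∞ :=
  volume {θ : ℝ | θ ∈ Ioo (-π) π ∧ (r : ℂ) * Complex.exp (θ * Complex.I) ∈ K}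

/-- HR2. Unimodality of the angular measure of a closed convex set not containing `0`. -/
def S_UNI : Prop :=
  ∀ K : Set ℂ, IsClosed K → Convex ℝ K → (∃ ε : ℝ, 0 < ε ∧ ∀ z ∈ K, ε ≤ z.re) →
    ∀ r₁ r₂ r₃ : ℝ, 0 < r₁ → r₁ < r₂ → r₂ < r₃ → min (wK K r₁) (wK K r₃) ≤ wK K r₂

/-- the kernel -/
noncomputable def kk (c r : ℝ) : ℝ := c ^ 2 * r / (3 * √(1 + c ^ 2 * r ^ 2) ^ 3)

/-- HR3. The volume of a cone in the unit ball after stretching the horizontal plane by `c`. -/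
def S_VOL : Prop :=
  ∀ P : Set (WithLp 2 (ℂ × ℝ)), IsClosed P → (∀ p ∈ P, ∀ s : ℝ, 0 ≤ s → s • p ∈ P) →
    (∀ p ∈ P, 0 ≤ p.snd) → ∀ c : ℝ, 0 < c →
    volume {p : WithLp 2 (ℂ × ℝ) | WithLp.toLp 2 (c⁻¹ • p.fst, p.snd) ∈ P ∧ ‖p‖ ≤ 1} =
      ∫⁻ r in Ioi (0 : ℝ), wK {z : ℂ | WithLp.toLp 2 (z, (1 : ℝ)) ∈ P} r *
        ENNReal.ofReal (kk c r)

/-- HR4. Three equal values. -/
def S_TV : Prop :=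
  ∀ w : ℝ → ℝ≥0∞, Measurable w → (∃ M : ℝ, ∀ r, w r ≤ ENNReal.ofReal M) →
    (∃ ρ : ℝ, 0 < ρ ∧ ∀ r < ρ, w r = 0) →
    (∀ r₁ r₂ r₃ : ℝ, 0 < r₁ → r₁ < r₂ → r₂ < r₃ → min (w r₁) (w r₃) ≤ w r₂) →
    ∀ c₁ c₂ c₃ : ℝ, 0 < c₁ → c₁ < c₂ → c₂ < c₃ →
      (∫⁻ r in Ioi (0 : ℝ), w r * ENNReal.ofReal (kk c₁ r) =
        ∫⁻ r in Ioi (0 : ℝ), w r * ENNReal.ofReal (kk c₂ r)) →
      (∫⁻ r in Ioi (0 : ℝ), w r * ENNReal.ofReal (kk c₂ r) =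
        ∫⁻ r in Ioi (0 : ℝ), w r * ENNReal.ofReal (kk c₃ r)) →
      ∫⁻ r in Ioi (0 : ℝ), w r * ENNReal.ofReal (kk c₁ r) = 0

/-- HR8. Assembly of the measure theoretic part. -/
def S_NULL : Prop :=
  ∀ P : Set (WithLp 2 (ℂ × ℝ)), IsClosed P → Convex ℝ P →
    (∀ p ∈ P, ∀ s : ℝ, 0 ≤ s → s • p ∈ P) → (∀ p ∈ P, 0 ≤ p.snd) →
    WithLp.toLp 2 ((0 : ℂ), (1 : ℝ)) ∉ P → ∀ c₁ c₂ : ℝ, 0 < c₁ → 0 < c₂ → c₁ ≠ 1 → c₂ ≠ 1 →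
    c₁ ≠ c₂ →
    (∃ R : WithLp 2 (ℂ × ℝ) ≃ₗᵢ[ℝ] WithLp 2 (ℂ × ℝ), ∀ n, n ∈ P ↔
      WithLp.toLp 2 (c₁⁻¹ • (R n).fst, (R n).snd) ∈ P) →
    (∃ R : WithLp 2 (ℂ × ℝ) ≃ₗᵢ[ℝ] WithLp 2 (ℂ × ℝ), ∀ n, n ∈ P ↔
      WithLp.toLp 2 (c₂⁻¹ • (R n).fst, (R n).snd) ∈ P) →
    volume P = 0

/-- HR5. Monomial groups. -/
def S_OCT : Prop :=
  ∀ (W : Type) [AddCommGroup W] [Module ℝ W] (a b e : W) (H : Subgroup (W ≃ₗ[ℝ] W))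
    (M₁ M₂ : W ≃ₗ[ℝ] W), M₁ ∈ H → M₂ ∈ H → ∀ c₁ c₂ s₁ s₂ : ℝ, 0 < c₁ → 0 < c₂ → c₁ ≠ 1 →
    c₂ ≠ 1 → c₁ ≠ c₂ → (s₁ = 1 ∨ s₁ = -1) → (s₂ = 1 ∨ s₂ = -1) →
    M₁ a = s₁ • e →
    ((M₁ e = (s₁ * c₁) • a ∧ M₁ b = (s₁ * c₁) • b) ∨
      (M₁ e = (s₁ * c₁) • b ∧ M₁ b = (s₁ * c₁) • a)) →
    M₂ b = s₂ • e →
    ((M₂ e = (s₂ * c₂) • b ∧ M₂ a = (s₂ * c₂) • a) ∨
      (M₂ e = (s₂ * c₂) • a ∧ M₂ a = (s₂ * c₂) • b)) →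
    ∃ L ∈ H, ∃ x y s : ℝ, |x| < 1 ∧ |y| < 1 ∧ |s| = 1 ∧ L a = x • a ∧ L b = y • b ∧ L e = s • e

/-- HR7. The planar problem at the end of the cylinder case. -/
def S_CYL : Prop :=
  ∀ (F : ℝ → ℝ) (B : ℝ), Continuous F → 0 ≤ B → ∀ c₁ c₂ : ℝ, 0 < c₁ → 0 < c₂ → c₁ ≠ 1 →
    c₂ ≠ 1 → c₁ ≠ c₂ →
    (∀ c : ℝ, c = c₁ ∨ c = c₂ →
      (∃ t κ δ ε : ℝ, (δ = 1 ∨ δ = -1) ∧ (ε = 1 ∨ ε = -1) ∧
        ∀ y, F (c * δ * y + t) = ε * (√(1 + c ^ 2 * B) / √(1 + B)) * F y + κ) ∨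
      (∃ a b ε : ℝ, (ε = 1 ∨ ε = -1) ∧
        ∀ y, F (a + c * ε / √(1 + B) * F y) = b + ε * √(1 + c ^ 2 * B) * y)) →
    ∀ x y, F x = F y

end H72HR
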