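import Pool.Agent.Results.MP_530d8e_an.HorizontallyRigid
import Pool.Agent.E8helper72.HR.Stm

/-!
# The dual cone of a function on the plane
-/

set_option autoImplicit false

open MeasureTheory Set
open Pool.Agent.Results.MP_530d8e_an.HorizontallyRigid

namespace H72HR

/-- the dual cone -/
def Pd (f : ℂ → ℝ) : Set (V ℂ) := {n | ∀ w ∈ coneK f, 0 ≤ inner ℝ n w}

theorem Pd_closed (f : ℂ → ℝ) : IsClosed (Pd f) := by
  have : Pd f = ⋂ w ∈ coneK f, {n : V ℂ | 0 ≤ inner ℝ n w} := by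
    ext n
    simp [Pd]
  rw [this]
  exact isClosed_biInter fun w _ => isClosed_le continuous_const (continuous_id.inner continuous_const)

theorem Pd_convex (f : ℂ → ℝ) : Convex ℝ (Pd f) := by
  intro n hn m hm a b ha hb _ w hw
  rw [inner_add_left, inner_smul_left, inner_smul_left]
  have h1 := hn w hw
  have h2 := hm w hw
  simp only [conj_trivial]
  positivity

theorem Pd_smul {f : ℂ → ℝ} : ∀ p ∈ Pd f, ∀ s : ℝ, 0 ≤ s → s • p ∈ Pd f := by
  intro n hn s hs w hw
  rw [inner_smul_left]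
  have h1 := hn w hw
  simp only [conj_trivial]
  positivity

theorem Pd_add {f : ℂ → ℝ} : ∀ p ∈ Pd f, ∀ q ∈ Pd f, p + q ∈ Pd f := by
  intro n hn m hm w hw
  rw [inner_add_left]
  exact add_nonneg (hn w hw) (hm w hw)

theorem Pd_snd {f : ℂ → ℝ} : ∀ p ∈ Pd f, 0 ≤ p.snd := by
  intro p hp
  have := hp e0 e0_mem_coneK
  rwa [real_inner_comm, ← snd_eq_inner] at this

/-- bidual of a closed convex cone in an inner product space -/
theorem bidual_gen {W : Type} [NormedAddCommGroup W] [InnerProductSpace ℝ W]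
    [FiniteDimensional ℝ W] {K : Set W} (hcl : IsClosed K) (h0 : (0 : W) ∈ K)
    (hadd : ∀ w ∈ K, ∀ w' ∈ K, w + w' ∈ K) (hsmul : ∀ w ∈ K, ∀ t : ℝ, 0 ≤ t → t • w ∈ K)
    {w : W} (h : ∀ n : W, (∀ v ∈ K, 0 ≤ inner ℝ n v) → 0 ≤ inner ℝ n w) : w ∈ K := by
  by_contra hw
  have hconv : Convex ℝ K := by
    intro x hx y hy a b ha hb _
    exact hadd _ (hsmul x hx a ha) _ (hsmul y hy b hb)
  obtain ⟨l, u, hl1, hl2⟩ := geometric_hahn_banach_point_closed hconv hcl hw
  haveI : CompleteSpace W := FiniteDimensional.complete ℝ W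
  set n := (InnerProductSpace.toDual ℝ W).symm l with hn
  have hln : ∀ x, inner ℝ n x = l x := by
    intro x
    rw [hn]
    exact InnerProductSpace.toDual_symm_apply
  have hu : u < 0 := by
    have := hl2 0 h0
    rwa [map_zero] at this
  have h1 : ∀ v ∈ K, 0 ≤ inner ℝ n v := by
    intro v hv
    rw [hln]
    by_contra hneg
    push Not at hneg
    have h2 := hl2 ((u / l v) • v) (hsmul v hv _ (div_nonneg_of_nonpos hu.le hneg.le))
    rw [map_smul, smul_eq_mul, div_mul_cancel₀ _ hneg.ne] at h2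
    exact lt_irrefl _ h2
  have h3 := h n h1
  rw [hln] at h3
  linarith

theorem zero_mem_coneK {f : ℂ → ℝ} : (0 : V ℂ) ∈ coneK f := by
  intro x t ht
  simp

theorem bidual {f : ℂ → ℝ} (hf : Continuous f) (w : V ℂ) :
    w ∈ coneK f ↔ ∀ n ∈ Pd f, 0 ≤ inner ℝ n w :=
  ⟨fun hw n hn => hn w hw, fun h => bidual_gen (coneK_closed hf) zero_mem_coneK coneK_add
    coneK_smul fun n hn => h n hn⟩

theorem Pd_rel {f : ℂ → ℝ} {c : ℝ} (hc : 0 < c) {R : V ℂ ≃ₗᵢ[ℝ] V ℂ}
    (hK : ∀ w, w ∈ coneK f ↔ R w ∈ coneK fun x => f (c • x)) (n : V ℂ) :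
    n ∈ Pd f ↔ mk (c⁻¹ • (R n).fst) (R n).snd ∈ Pd f := by
  constructor
  · intro hn w' hw'
    set w := R.symm (mk (c⁻¹ • w'.fst) w'.snd) with hw
    have hRw : R w = mk (c⁻¹ • w'.fst) w'.snd := by rw [hw, LinearIsometryEquiv.apply_symm_apply]
    have h1 : w ∈ coneK f := by
      rw [hK, hRw, coneK_scale hc, mk_fst, mk_snd, smul_smul, mul_inv_cancel₀ hc.ne', one_smul]
      exact hw'
    have h2 := hn w h1
    rw [← R.inner_map_map, hRw, inner_V, mk_fst, mk_snd, inner_smul_right] at h2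
    rw [inner_V, mk_fst, mk_snd, inner_smul_left]
    simpa using h2
  · intro hn w hw
    have h1 : mk (c • (R w).fst) (R w).snd ∈ coneK f := by
      rw [← coneK_scale hc, ← hK]
      exact hw
    have h2 := hn _ h1
    rw [inner_V, mk_fst, mk_snd, mk_fst, mk_snd, inner_smul_left, inner_smul_right] at h2
    rw [← R.inner_map_map, inner_V]
    have h3 : (starRingEnd ℝ) c⁻¹ * (c * inner ℝ (R n).fst (R w).fst) =
        inner ℝ (R n).fst (R w).fst := by
      rw [conj_trivial]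
      field_simp
    rw [h3] at h2
    exact h2

/-- a null dual cone: the function is a cylinder -/
theorem line_of_null {f : ℂ → ℝ} (hf : Continuous f) (h : volume (Pd f) = 0) :
    ∃ w : V ℂ, w ≠ 0 ∧ w ∈ coneK f ∧ -w ∈ coneK f := by
  have h1 : ¬ (interior (Pd f)).Nonempty := by
    intro h2
    have h3 := isOpen_interior.measure_pos (μ := (volume : Measure (V ℂ))) h2
    have h4 := measure_mono (μ := (volume : Measure (V ℂ))) (interior_subset (s := Pd f))
    rw [h] at h4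
    exact absurd h4 (not_le.2 h3)
  have h0 : (0 : V ℂ) ∈ Pd f := by
    intro w _
    simp
  have h5 : Submodule.span ℝ (Pd f) ≠ ⊤ := by
    intro h6
    apply h1
    rw [(Pd_convex f).interior_nonempty_iff_affineSpan_eq_top]
    rw [AffineSubspace.affineSpan_eq_top_iff_vectorSpan_eq_top_of_nonempty ℝ _ _ ⟨0, h0⟩]
    rw [eq_top_iff, ← h6, Submodule.span_le]
    intro x hx
    have := vsub_mem_vectorSpan ℝ hx h0
    simpa using this
  obtain ⟨w, hw, hw0⟩ := Submodule.exists_mem_ne_zero_of_ne_bot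
    (p := (Submodule.span ℝ (Pd f))ᗮ) (fun h7 => h5 ((Submodule.orthogonal_eq_bot_iff).1 h7))
  have h8 : ∀ n ∈ Pd f, inner ℝ n w = (0 : ℝ) := fun n hn =>
    (Submodule.mem_orthogonal _ _).1 hw n (Submodule.subset_span hn)
  refine ⟨w, hw0, (bidual hf w).2 fun n hn => (h8 n hn).ge, (bidual hf _).2 fun n hn => ?_⟩
  rw [inner_neg_right, h8 n hn, neg_zero]

end H72HR
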