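import Pool.Agent.E8helper72.HR.Cone

/-!
# The group of the linear parts of the affine maps preserving the graph
-/

set_option autoImplicit false

open MeasureTheory Set Filter Topology
open Pool.Agent.Results.MP_530d8e_an.HorizontallyRigid

namespace H72HR

/-- the linear parts of the affine bijections preserving a set -/
def GG (G : Set (V ℂ)) : Subgroup (V ℂ ≃ₗ[ℝ] V ℂ) where
  carrier := {L | ∃ t, ∀ p, p ∈ G ↔ L p + t ∈ G}
  mul_mem' := by
    rintro L₁ L₂ ⟨t₁, h₁⟩ ⟨t₂, h₂⟩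
    refine ⟨L₁ t₂ + t₁, fun p => ?_⟩
    rw [h₂, h₁, map_add, add_assoc]
    rfl
  one_mem' := ⟨0, fun p => by simp⟩
  inv_mem' := by
    rintro L ⟨t, h⟩
    refine ⟨-(L⁻¹ t), fun p => ?_⟩
    have e1 : L (L⁻¹ p + -(L⁻¹ t)) + t = p := by
      have h1 : ∀ x, L (L⁻¹ x) = x := fun x => L.apply_symm_apply x
      rw [map_add, map_neg, h1, h1]
      abel
    rw [h (L⁻¹ p + -(L⁻¹ t)), e1]

theorem mem_GG {G : Set (V ℂ)} {L : V ℂ ≃ₗ[ℝ] V ℂ} :
    L ∈ GG G ↔ ∃ t, ∀ p, p ∈ G ↔ L p + t ∈ G := Iff.rfl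

/-- the stretching of the plane -/
noncomputable def dilE (c : ℝ) (hc : c ≠ 0) : V ℂ ≃ₗ[ℝ] V ℂ where
  toFun p := mk (c • p.fst) p.snd
  invFun p := mk (c⁻¹ • p.fst) p.snd
  map_add' p q := by
    show mk (c • (p.fst + q.fst)) (p.snd + q.snd) = _
    rw [smul_add]
    rfl
  map_smul' s p := by
    show mk (c • (s • p.fst)) (s * p.snd) = s • mk (c • p.fst) p.snd
    rw [smul_comm]
    rfl
  left_inv p := by
    show mk (c⁻¹ • (c • p.fst)) p.snd = p
    rw [smul_smul, inv_mul_cancel₀ hc, one_smul, mk_eta]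
  right_inv p := by
    show mk (c • (c⁻¹ • p.fst)) p.snd = p
    rw [smul_smul, mul_inv_cancel₀ hc, one_smul, mk_eta]

theorem dilE_apply (c : ℝ) (hc : c ≠ 0) (p : V ℂ) : dilE c hc p = mk (c • p.fst) p.snd := rfl

/-- the linear part of the symmetry belonging to `c` -/
noncomputable def MM (c ε : ℝ) (hc : c ≠ 0) (hε : ε ≠ 0) (R : V ℂ ≃ₗᵢ[ℝ] V ℂ) :
    V ℂ ≃ₗ[ℝ] V ℂ :=
  R.toLinearEquiv.trans ((LinearEquiv.smulOfNeZero ℝ (V ℂ) ε hε).trans (dilE c hc))

theorem MM_apply (c ε : ℝ) (hc : c ≠ 0) (hε : ε ≠ 0) (R : V ℂ ≃ₗᵢ[ℝ] V ℂ) (p : V ℂ) :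
    MM c ε hc hε R p = mk (c • (ε • (R p).fst)) (ε * (R p).snd) := rfl

theorem MM_mem {f : ℂ → ℝ} {c ε : ℝ} (hc : c ≠ 0) (hε : ε ≠ 0) {φ : V ℂ ≃ᵢ V ℂ}
    {R : V ℂ ≃ₗᵢ[ℝ] V ℂ} (hφ : φ '' graph f = graph fun x => f (c • x))
    (hR : ∀ p w, φ (p + w) = φ p + ε • R w) : MM c ε hc hε R ∈ GG (graph f) := by
  refine ⟨dilE c hc (φ 0), fun p => ?_⟩
  have h1 : p ∈ graph f ↔ φ p ∈ graph fun x => f (c • x) := by
    rw [← hφ]
    constructor
    · intro hp
      exact ⟨p, hp, rfl⟩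
    · rintro ⟨q, hq, hqp⟩
      rwa [← φ.injective hqp]
  have h2 : φ p = φ 0 + ε • R p := by
    rw [← hR, zero_add]
  have h3 : MM c ε hc hε R p + dilE c hc (φ 0) = dilE c hc (φ p) := by
    rw [h2, map_add, add_comm]
    rfl
  rw [h1, h3]
  rfl

/-- a symmetry which contracts the plane -/
theorem crit_lt {f : ℂ → ℝ} (hf : Continuous f) {L : V ℂ ≃ₗ[ℝ] V ℂ} (hL : L ∈ GG (graph f))
    {ρ s : ℝ} (hρ0 : 0 ≤ ρ) (hρ : ρ < 1) (hs : |s| = 1) (hLe : L e0 = s • e0)
    (hLx : ∀ x : ℂ, (L (mk x 0)).snd = 0 ∧ ‖(L (mk x 0)).fst‖ ≤ ρ * ‖x‖) :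
    ∀ x y, f x = f y := by
  obtain ⟨t, ht⟩ := hL
  have hLxy : ∀ (x : ℂ) (y : ℝ), L (mk x y) = mk (L (mk x 0)).fst (s * y) := by
    intro x y
    have e1 : mk x y = mk x 0 + y • e0 := by
      refine ext_mk ?_ ?_
      · show x = x + y • (0 : ℂ)
        rw [smul_zero, add_zero]
      · show y = 0 + y * 1
        ring
    rw [e1, map_add, map_smul, hLe]
    refine ext_mk ?_ ?_
    · show (L (mk x 0)).fst + y • s • (0 : ℂ) = (L (mk x 0)).fst
      rw [smul_zero, smul_zero, add_zero]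
    · show (L (mk x 0)).snd + y * (s * 1) = s * y
      rw [(hLx x).1]
      ring
  set T : ℂ → ℂ := fun x => (L (mk x 0)).fst + t.fst with hT
  have hfT : ∀ x, f (T x) = s * f x + t.snd := by
    intro x
    have h1 : mk x (f x) ∈ graph f := rfl
    rw [ht, hLxy] at h1
    have h2 : s * f x + t.snd = f ((L (mk x 0)).fst + t.fst) := h1
    exact h2.symm
  have hTd : ∀ x y, dist (T x) (T y) ≤ ρ * dist x y := by
    intro x y
    rw [dist_eq_norm, dist_eq_norm]
    have e1 : T x - T y = (L (mk (x - y) 0)).fst := by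
      have e2 : (mk (x - y) 0 : V ℂ) = mk x 0 - mk y 0 := by
        rw [sub_mk, sub_zero]
      rw [e2, map_sub]
      show (L (mk x 0)).fst + t.fst - ((L (mk y 0)).fst + t.fst) =
        (L (mk x 0)).fst - (L (mk y 0)).fst
      ring
    rw [e1]
    exact (hLx _).2
  have hc : ContractingWith ⟨ρ, hρ0⟩ T :=
    ⟨by exact_mod_cast hρ, LipschitzWith.of_dist_le_mul fun x y => hTd x y⟩
  set x₀ := ContractingWith.fixedPoint T hc with hx₀
  have hfix : T x₀ = x₀ := hc.fixedPoint_isFixedPt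
  have h0 : f x₀ = s * f x₀ + t.snd := by
    conv_lhs => rw [← hfix]
    exact hfT x₀
  have hF : ∀ (n : ℕ) x, |f (T^[n] x) - f x₀| = |f x - f x₀| := by
    intro n
    induction n with
    | zero => intro x; rfl
    | succ n ih =>
      intro x
      rw [Function.iterate_succ_apply, ih, hfT]
      have e1 : s * f x + t.snd - f x₀ = s * (f x - f x₀) := by linarith
      rw [e1, abs_mul, hs, one_mul]
  have main : ∀ x, f x = f x₀ := by
    intro x
    have h1 : Tendsto (fun n : ℕ => T^[n] x) atTop (𝓝 x₀) := hc.tendsto_iterate_fixedPoint x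
    have h2 : Tendsto (fun n : ℕ => |f (T^[n] x) - f x₀|) atTop (𝓝 |f x₀ - f x₀|) :=
      (((hf.tendsto x₀).comp h1).sub_const _).abs
    have e2 : (fun n : ℕ => |f (T^[n] x) - f x₀|) = fun _ => |f x - f x₀| :=
      funext fun n => hF n x
    rw [e2, sub_self, abs_zero] at h2
    have h3 := tendsto_nhds_unique h2 tendsto_const_nhds
    have h4 := abs_eq_zero.1 h3.symm
    linarith
  intro x y
  rw [main x, main y]

/-- a symmetry which is a similarity of the plane -/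
theorem crit {f : ℂ → ℝ} (hf : Continuous f) {L : V ℂ ≃ₗ[ℝ] V ℂ} (hL : L ∈ GG (graph f))
    {ρ s : ℝ} (hρ0 : 0 < ρ) (hρ : ρ ≠ 1) (hs : |s| = 1) (hLe : L e0 = s • e0)
    (hLx : ∀ x : ℂ, (L (mk x 0)).snd = 0 ∧ ‖(L (mk x 0)).fst‖ = ρ * ‖x‖) :
    ∀ x y, f x = f y := by
  rcases lt_or_gt_of_ne hρ with h | h
  · exact crit_lt hf hL hρ0.le h hs hLe fun x => ⟨(hLx x).1, (hLx x).2.le⟩
  · have hs0 : s ≠ 0 := by
      rintro rfl
      simp at hs
    have hinv : ∀ x, L (L⁻¹ x) = x := fun x => L.apply_symm_apply x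
    refine crit_lt hf (L := L⁻¹) (ρ := ρ⁻¹) (s := s⁻¹) (inv_mem hL) (by positivity)
      (inv_lt_one_of_one_lt₀ h) (by rw [abs_inv, hs, inv_one]) ?_ ?_
    · apply L.injective
      rw [hinv, map_smul, hLe, smul_smul, inv_mul_cancel₀ hs0, one_smul]
    · intro x
      set p := L⁻¹ (mk x 0) with hp
      have h1 : L p = mk x 0 := hinv _
      have e1 : p = mk p.fst 0 + p.snd • e0 := by
        refine ext_mk ?_ ?_
        · show p.fst = p.fst + p.snd • (0 : ℂ)
          rw [smul_zero, add_zero]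
        · show p.snd = 0 + p.snd * 1
          ring
      have h2 : L p = L (mk p.fst 0) + (p.snd * s) • e0 := by
        conv_lhs => rw [e1]
        rw [map_add, map_smul, hLe, smul_smul]
      have h3 : (L p).snd = p.snd * s := by
        rw [h2]
        show (L (mk p.fst 0)).snd + p.snd * s * 1 = _
        rw [(hLx _).1]
        ring
      have h4 : (L p).fst = (L (mk p.fst 0)).fst := by
        rw [h2]
        show (L (mk p.fst 0)).fst + (p.snd * s) • (0 : ℂ) = _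
        rw [smul_zero, add_zero]
      rw [h1, mk_snd] at h3
      rw [h1, mk_fst] at h4
      have h5 : p.snd = 0 := by
        rcases mul_eq_zero.1 h3.symm with h6 | h6
        · exact h6
        · exact absurd h6 hs0
      refine ⟨h5, ?_⟩
      have h6 := (hLx p.fst).2
      rw [← h4] at h6
      rw [h6, ← mul_assoc, inv_mul_cancel₀ hρ0.ne', one_mul]

end H72HR
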