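import Pool.Agent.E8helper72.HR.Cyl1

/-!
# A cylinder is affine or its cone has one of the two shapes
-/

set_option autoImplicit false

open MeasureTheory Set Filter Topology
open Pool.Agent.Results.MP_530d8e_an.HorizontallyRigid

namespace H72HR

variable {f : ℂ → ℝ} {τ : ℂ} {b : ℝ}

theorem no_three_roots {p₀ p₁ p₂ x y : ℝ} (hx : x ≠ 1) (hy : y ≠ 1) (hxy : x ≠ y)
    (h1 : p₀ + p₁ + p₂ = 0) (h2 : p₀ + p₁ * x + p₂ * x ^ 2 = 0)
    (h3 : p₀ + p₁ * y + p₂ * y ^ 2 = 0) : p₀ = 0 := by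
  have e1 : (x - 1) * (p₁ + p₂ * (x + 1)) = 0 := by linear_combination h2 - h1
  have e2 : (y - 1) * (p₁ + p₂ * (y + 1)) = 0 := by linear_combination h3 - h1
  have e3 := (mul_eq_zero.1 e1).resolve_left (sub_ne_zero.2 hx)
  have e4 := (mul_eq_zero.1 e2).resolve_left (sub_ne_zero.2 hy)
  have e5 : (x - y) * p₂ = 0 := by linear_combination e3 - e4
  have e6 := (mul_eq_zero.1 e5).resolve_left (sub_ne_zero.2 hxy)
  rw [e6] at e3 h1
  linarith

/-- slopes bounded: the function is affine -/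
theorem bounded_case (hf : Continuous f) (hτ : ‖τ‖ = 1) (hu : mk τ b ∈ coneK f)
    (hu' : -(mk τ b) ∈ coneK f) (hbelow : BddBelow (JJ f τ b)) (habove : BddAbove (JJ f τ b))
    {c₁ c₂ : ℝ} (hc₁ : 0 < c₁) (hc₂ : 0 < c₂) (h1 : c₁ ≠ 1) (h2 : c₂ ≠ 1) (h12 : c₁ ≠ c₂)
    (hall : ∀ c : ℝ, c = c₁ ∨ c = c₂ → ∃ R : V ℂ ≃ₗᵢ[ℝ] V ℂ,
      ∀ n, n ∈ Pd f ↔ mk (c⁻¹ • (R n).fst) (R n).snd ∈ Pd f) :
    ∃ (a : ℝ) (β : ℂ), ∀ x, f x = a + inner ℝ β x := by
  have hne := JJ_nonempty hf hτ hu hu'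
  set j := sInf (JJ f τ b) with hj
  set k := sSup (JJ f τ b) with hk
  have hjJ : j ∈ JJ f τ b := JJ_closed.csInf_mem hne hbelow
  have hkJ : k ∈ JJ f τ b := JJ_closed.csSup_mem hne habove
  have hle : ∀ x, NN τ b x 0 ∈ Pd f → x = 0 := by
    intro x hx
    by_contra hx0
    rcases lt_or_gt_of_ne hx0 with hcon | hcon
    · obtain ⟨m, hm⟩ := habove
      have h1 := hm (recess hx hjJ (t := (|j - m| + 1) / -x) (by
        have : 0 < -x := by linarith
        positivity))
      have h3 : (|j - m| + 1) / -x * x = -(|j - m| + 1) := by field_simp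
      rw [h3] at h1
      have h2 := neg_abs_le (j - m)
      linarith
    · obtain ⟨m, hm⟩ := hbelow
      have h1 := hm (recess hx hjJ (t := (|j - m| + 1) / x) (by positivity))
      rw [div_mul_cancel₀ _ hcon.ne'] at h1
      have h2 := le_abs_self (j - m)
      linarith
  have hjk : j ≤ k := csInf_le hbelow hkJ
  rcases hjk.eq_or_lt with heq | hlt
  · -- one slope
    have hJ : ∀ s ∈ JJ f τ b, s = j := by
      intro s hs
      have h3 := csInf_le hbelow hs
      have h4 := le_csSup habove hs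
      rw [← hk, ← heq] at h4
      exact le_antisymm h4 h3
    refine ⟨f 0, b • τ + j • (Complex.I * τ), fun x => ?_⟩
    set η : ℝ := inner ℝ (b • τ + j • (Complex.I * τ)) x with hη
    have hη' : η = inner ℝ (b • τ) x + j * inner ℝ (Complex.I * τ) x := by
      rw [hη, inner_add_left, inner_smul_left _ _ j]
      simp
    have k1 : mk x η ∈ coneK f := by
      rw [mem_cone_iff hf hτ hu hu']
      refine ⟨fun s hs => ?_, fun y hy => ?_⟩
      · rw [hJ s hs, mk_fst, mk_snd, hη']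
        linarith
      · rw [hle y hy, zero_mul]
    have k2 : mk (-x) (-η) ∈ coneK f := by
      rw [mem_cone_iff hf hτ hu hu']
      refine ⟨fun s hs => ?_, fun y hy => ?_⟩
      · rw [hJ s hs, mk_fst, mk_snd, inner_neg_right, inner_neg_right, hη']
        linarith
      · rw [hle y hy, zero_mul]
    have k3 := k1 0 1 zero_le_one
    have k4 := k2 x 1 zero_le_one
    rw [mk_fst, mk_snd, one_smul, zero_add, one_mul] at k3
    rw [mk_fst, mk_snd, one_smul, one_mul, add_neg_cancel] at k4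
    linarith
  · exfalso
    have hP : ∀ n, n ∈ Pd f ↔ ∃ s t : ℝ, 0 ≤ s ∧ 0 ≤ t ∧
        n = s • NN τ b (-j) 1 + t • NN τ b (-k) 1 := by
      intro n
      constructor
      · intro hn
        have h1 := Pd_NN hτ hu hu' hn
        set x := (inner ℝ (Complex.I * τ) n.fst : ℝ) with hx
        have hkj : 0 < k - j := by linarith
        have hcoef : n.snd * j ≤ -x ∧ -x ≤ n.snd * k := by
          rcases (Pd_snd n hn).eq_or_lt with h2 | h2
          · rw [← h2] at h1 ⊢
            have := hle x (h1 ▸ hn)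
            constructor <;> linarith
          · have h3 : -(x / n.snd) ∈ JJ f τ b := by
              rw [← NN_scale h2, ← h1]
              exact hn
            have h4 := csInf_le hbelow h3
            have h4' := le_csSup habove h3
            rw [← hj] at h4
            rw [← hk] at h4'
            have h5 : n.snd * j ≤ n.snd * (-(x / n.snd)) := mul_le_mul_of_nonneg_left h4 h2.le
            have h5' : n.snd * (-(x / n.snd)) ≤ n.snd * k := mul_le_mul_of_nonneg_left h4' h2.le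
            have h6 : n.snd * (-(x / n.snd)) = -x := by field_simp
            constructor <;> linarith
        refine ⟨(n.snd * k + x) / (k - j), (-x - n.snd * j) / (k - j),
          div_nonneg (by linarith) hkj.le, div_nonneg (by linarith) hkj.le, ?_⟩
        rw [NN_lin]
        conv_lhs => rw [h1]
        congr 1
        · field_simp
          ring
        · field_simp
          ring
      · rintro ⟨s, t, hs, ht, rfl⟩
        exact Pd_add _ (Pd_smul _ hjJ _ hs) _ (Pd_smul _ hkJ _ ht)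
    have hind : ∀ s t : ℝ, s • NN τ b (-j) 1 + t • NN τ b (-k) 1 = 0 → s = 0 ∧ t = 0 := by
      intro s t h
      rw [NN_lin] at h
      have h1 : (NN τ b (s * -j + t * -k) (s * 1 + t * 1)).snd = 0 := by rw [h]; rfl
      have h2 : s * 1 + t * 1 = 0 := h1
      have h4 : inner ℝ (NN τ b (s * -j + t * -k) (s * 1 + t * 1)) (mk (Complex.I * τ) 0) =
          (0 : ℝ) := by rw [h, inner_zero_left]
      rw [NN_inner, mk_fst, mk_snd, real_inner_self_eq_norm_sq, norm_I hτ, inner_smul_left,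
        inner_I, h2] at h4
      have h5 : t * (k - j) = 0 := by
        have h6 : s = -t := by linarith
        rw [h6] at h4
        linarith
      have h7 : t = 0 := by
        rcases mul_eq_zero.1 h5 with h8 | h8
        · exact h8
        · exfalso
          linarith
      exact ⟨by linarith, h7⟩
    have hroot : ∀ c : ℝ, c = c₁ ∨ c = c₂ →
        (1 + b ^ 2) + ((1 + b ^ 2) * ((b ^ 2 + j ^ 2) + (b ^ 2 + k ^ 2)) -
          (1 + (b ^ 2 + j ^ 2)) * (1 + (b ^ 2 + k ^ 2))) * c ^ 2 +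
          ((1 + b ^ 2) * ((b ^ 2 + j ^ 2) * (b ^ 2 + k ^ 2)) -
          b ^ 2 * ((1 + (b ^ 2 + j ^ 2)) * (1 + (b ^ 2 + k ^ 2)))) * (c ^ 2) ^ 2 = 0 := by
      intro c hcc
      have hc : 0 < c := by rcases hcc with rfl | rfl <;> assumption
      obtain ⟨R, hR⟩ := hall c hcc
      have hw := wedge hP hind hc hR
      have q1 := NN_dil_inner hτ b (-j) 1 (-j) 1 c
      have q2 := NN_dil_inner hτ b (-j) 1 (-k) 1 c
      have q3 := NN_dil_inner hτ b (-k) 1 (-k) 1 c
      have p1 := NN_dil_inner hτ b (-j) 1 (-j) 1 1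
      have p2 := NN_dil_inner hτ b (-j) 1 (-k) 1 1
      have p3 := NN_dil_inner hτ b (-k) 1 (-k) 1 1
      rw [one_smul, one_smul, mk_eta, mk_eta] at p2
      rw [one_smul, mk_eta] at p1 p3
      rw [q1, q2, q3, p1, p2, p3] at hw
      have h5 : (k - j) ^ 2 * ((1 + b ^ 2) +
          ((1 + b ^ 2) * ((b ^ 2 + j ^ 2) + (b ^ 2 + k ^ 2)) -
          (1 + (b ^ 2 + j ^ 2)) * (1 + (b ^ 2 + k ^ 2))) * c ^ 2 +
          ((1 + b ^ 2) * ((b ^ 2 + j ^ 2) * (b ^ 2 + k ^ 2)) -
          b ^ 2 * ((1 + (b ^ 2 + j ^ 2)) * (1 + (b ^ 2 + k ^ 2)))) * (c ^ 2) ^ 2) = 0 := by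
        linear_combination (-1) * hw
      have h6 : (k - j) ^ 2 ≠ 0 := by
        have : 0 < k - j := by linarith
        positivity
      exact (mul_eq_zero.1 h5).resolve_left h6
    have hsq : ∀ x : ℝ, 0 < x → x ≠ 1 → x ^ 2 ≠ 1 := by
      intro x hx hx1 h
      apply hx1
      have h4 : (x - 1) * (x + 1) = 0 := by linarith
      rcases mul_eq_zero.1 h4 with h5 | h5
      · linarith
      · linarith
    have hp := no_three_roots (p₀ := 1 + b ^ 2)
      (p₁ := (1 + b ^ 2) * ((b ^ 2 + j ^ 2) + (b ^ 2 + k ^ 2)) -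
          (1 + (b ^ 2 + j ^ 2)) * (1 + (b ^ 2 + k ^ 2)))
      (p₂ := (1 + b ^ 2) * ((b ^ 2 + j ^ 2) * (b ^ 2 + k ^ 2)) -
          b ^ 2 * ((1 + (b ^ 2 + j ^ 2)) * (1 + (b ^ 2 + k ^ 2))))
      (x := c₁ ^ 2) (y := c₂ ^ 2) (hsq c₁ hc₁ h1) (hsq c₂ hc₂ h2)
      (fun h => h12 ((pow_left_inj₀ hc₁.le hc₂.le two_ne_zero).1 h)) (by ring)
      (hroot c₁ (Or.inl rfl)) (hroot c₂ (Or.inr rfl))
    have : 0 < 1 + b ^ 2 := by positivity
    linarith

/-- A function whose cone contains a line is affine or its cone has one of the two shapes. -/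
theorem line_shape (hf : Continuous f)
    (hline : ∃ w : V ℂ, w ≠ 0 ∧ w ∈ coneK f ∧ -w ∈ coneK f)
    {c₁ c₂ : ℝ} (hc₁ : 0 < c₁) (hc₂ : 0 < c₂) (h1 : c₁ ≠ 1) (h2 : c₂ ≠ 1) (h12 : c₁ ≠ c₂)
    (hall : ∀ c : ℝ, c = c₁ ∨ c = c₂ → ∃ R : V ℂ ≃ₗᵢ[ℝ] V ℂ,
      ∀ n, n ∈ Pd f ↔ mk (c⁻¹ • (R n).fst) (R n).snd ∈ Pd f) :
    (∃ (a : ℝ) (β : ℂ), ∀ x, f x = a + inner ℝ β x) ∨
      ∃ β e : ℂ, ‖e‖ = 1 ∧ inner ℝ β e = (0 : ℝ) ∧ Shape f β e := by
  obtain ⟨w, hw0, hw, hw'⟩ := hline
  have ht0 : w.fst ≠ 0 := by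
    intro h
    apply hw0
    have e1 : w = mk 0 w.snd := by
      rw [← h]
      exact (mk_eta w).symm
    have e2 : -w = mk 0 (-w.snd) := by
      conv_lhs => rw [e1]
      rw [neg_mk, neg_zero]
    rw [e2] at hw'
    rw [e1] at hw
    have h3 := coneK_vertical _ hw
    have h4 := coneK_vertical _ hw'
    have h5 : w.snd = 0 := by linarith
    rw [e1, h5]
    rfl
  have hn : 0 < ‖w.fst‖ := norm_pos_iff.2 ht0
  set τ : ℂ := (‖w.fst‖)⁻¹ • w.fst with hτdef
  set b : ℝ := (‖w.fst‖)⁻¹ * w.snd with hb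
  have hτ : ‖τ‖ = 1 := by
    rw [hτdef, norm_smul, norm_inv, norm_norm, inv_mul_cancel₀ hn.ne']
  have hu : mk τ b ∈ coneK f := by
    have := coneK_smul _ hw (‖w.fst‖)⁻¹ (by positivity)
    exact this
  have hu' : -(mk τ b) ∈ coneK f := by
    have := coneK_smul _ hw' (‖w.fst‖)⁻¹ (by positivity)
    rw [smul_neg] at this
    exact this
  have hI := norm_I hτ
  have hinI : inner ℝ (b • τ) (Complex.I * τ) = (0 : ℝ) := by
    rw [inner_smul_left, inner_I, mul_zero]
  by_cases hbelow : BddBelow (JJ f τ b)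
  · by_cases habove : BddAbove (JJ f τ b)
    · exact Or.inl (bounded_case hf hτ hu hu' hbelow habove hc₁ hc₂ h1 h2 h12 hall)
    · right
      obtain ⟨R, hR⟩ := hall c₁ (Or.inl rfl)
      refine ⟨b • τ, -(Complex.I * τ), by rw [norm_neg, hI], ?_,
        half_case hf hτ hu hu' hbelow habove hc₁ h1 hR⟩
      rw [inner_neg_right, hinI, neg_zero]
  · right
    by_cases habove : BddAbove (JJ f τ b)
    · -- reflect
      obtain ⟨R, hR⟩ := hall c₁ (Or.inl rfl)
      have hτ' : ‖-τ‖ = 1 := by rw [norm_neg, hτ]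
      have hneg : mk (-τ) (-b) = -(mk τ b) := (neg_mk τ b).symm
      have hJJ : ∀ s, s ∈ JJ f (-τ) (-b) ↔ -s ∈ JJ f τ b := by
        intro s
        have e1 : NN (-τ) (-b) (-s) 1 = NN τ b (-(-s)) 1 := by
          refine ext_mk ?_ rfl
          show (-s) • (Complex.I * -τ) - (1 : ℝ) • (-b • -τ) =
            (-(-s)) • (Complex.I * τ) - (1 : ℝ) • (b • τ)
          simp
        show NN (-τ) (-b) (-s) 1 ∈ Pd f ↔ NN τ b (-(-s)) 1 ∈ Pd f
        rw [e1]
      have hb1 : BddBelow (JJ f (-τ) (-b)) := by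
        obtain ⟨m, hm⟩ := habove
        refine ⟨-m, fun s hs => ?_⟩
        have := hm ((hJJ s).1 hs)
        linarith
      have hb2 : ¬ BddAbove (JJ f (-τ) (-b)) := by
        rintro ⟨m, hm⟩
        apply hbelow
        refine ⟨-m, fun s hs => ?_⟩
        have := hm ((hJJ (-s)).2 (by rw [neg_neg]; exact hs))
        linarith
      have key := half_case hf hτ' (by rw [hneg]; exact hu') (by rw [hneg, neg_neg]; exact hu)
        hb1 hb2 hc₁ h1 hR
      have e1 : (-b) • (-τ) = b • τ := by simp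
      have e2 : -(Complex.I * -τ) = Complex.I * τ := by ring
      rw [e1, e2] at key
      exact ⟨b • τ, Complex.I * τ, hI, hinI, key⟩
    · -- all slopes
      refine ⟨b • τ, Complex.I * τ, hI, hinI, Or.inl fun w => ?_⟩
      have hall' : ∀ s, s ∈ JJ f τ b := by
        intro s
        have hord : (JJ f τ b).OrdConnected := JJ_conv.ordConnected
        have a1 : ∃ x ∈ JJ f τ b, x < s := by
          by_contra hcon
          push Not at hcon
          exact hbelow ⟨s, fun x hx => hcon x hx⟩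
        have a2 : ∃ x ∈ JJ f τ b, s < x := by
          by_contra hcon
          push Not at hcon
          exact habove ⟨s, fun x hx => hcon x hx⟩
        obtain ⟨x, hx, hxs⟩ := a1
        obtain ⟨y, hy, hsy⟩ := a2
        exact hord.out hx hy ⟨hxs.le, hsy.le⟩
      rw [mem_cone_iff hf hτ hu hu']
      set X := (inner ℝ (Complex.I * τ) w.fst : ℝ) with hX
      set Y := w.snd - (inner ℝ (b • τ) w.fst : ℝ) with hY
      constructor
      · rintro ⟨k1, _⟩
        have k3 := k1 0 (hall' 0)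
        have hX0 : X = 0 := by
          by_contra hX0
          have k4 := k1 ((Y + 1) / X) (hall' _)
          rw [div_mul_cancel₀ _ hX0] at k4
          linarith
        exact ⟨by linarith, hX0⟩
      · rintro ⟨k1, k2⟩
        refine ⟨fun s _ => by rw [k2]; linarith, fun x _ => by rw [k2, mul_zero]⟩

end H72HR
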