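import Pool.Agent.E8helper72.HR.Cyl2

/-!
# The shape of the cone of a cylinder
-/

set_option autoImplicit false

open MeasureTheory Set Filter Topology
open Pool.Agent.Results.MP_530d8e_an.HorizontallyRigid

namespace H72HR

theorem wedge {P : Set (V ℂ)} {n₁ n₂ : V ℂ}
    (hP : ∀ n, n ∈ P ↔ ∃ s t : ℝ, 0 ≤ s ∧ 0 ≤ t ∧ n = s • n₁ + t • n₂)
    (hind : ∀ s t : ℝ, s • n₁ + t • n₂ = 0 → s = 0 ∧ t = 0) {c : ℝ} (hc : 0 < c)
    {R : V ℂ ≃ₗᵢ[ℝ] V ℂ} (hR : ∀ n, n ∈ P ↔ mk (c⁻¹ • (R n).fst) (R n).snd ∈ P) :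
    (inner ℝ n₁ n₂ : ℝ) ^ 2 * (inner ℝ (mk (c • n₁.fst) n₁.snd) (mk (c • n₁.fst) n₁.snd) *
      inner ℝ (mk (c • n₂.fst) n₂.snd) (mk (c • n₂.fst) n₂.snd)) =
    (inner ℝ (mk (c • n₁.fst) n₁.snd) (mk (c • n₂.fst) n₂.snd) : ℝ) ^ 2 *
      (inner ℝ n₁ n₁ * inner ℝ n₂ n₂) := by
  set D := dilE c hc.ne' with hD
  have hDa : ∀ n, D n = mk (c • n.fst) n.snd := fun n => rfl
  rw [← hDa, ← hDa]
  set T : V ℂ ≃ₗ[ℝ] V ℂ := R.toLinearEquiv.trans (dilE c⁻¹ (inv_ne_zero hc.ne')) with hT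
  have hTP : ∀ n, n ∈ P ↔ T n ∈ P := hR
  have hTP' : ∀ n, n ∈ P → T.symm n ∈ P := by
    intro n hn
    rw [hTP, T.apply_symm_apply]
    exact hn
  have hRT : ∀ n, R n = D (T n) := by
    intro n
    rw [hDa]
    show R n = mk (c • (c⁻¹ • (R n).fst)) (R n).snd
    rw [smul_smul, mul_inv_cancel₀ hc.ne', one_smul, mk_eta]
  have hn1 : n₁ ∈ P := (hP _).2 ⟨1, 0, zero_le_one, le_rfl, by rw [one_smul, zero_smul, add_zero]⟩
  have hn2 : n₂ ∈ P := (hP _).2 ⟨0, 1, le_rfl, zero_le_one, by rw [one_smul, zero_smul, zero_add]⟩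
  obtain ⟨s, t, hs, ht, e1⟩ := (hP _).1 ((hTP _).1 hn1)
  obtain ⟨s', t', hs', ht', e2⟩ := (hP _).1 ((hTP _).1 hn2)
  obtain ⟨a, b, ha, hb, e3⟩ := (hP _).1 (hTP' _ hn1)
  obtain ⟨a', b', ha', hb', e4⟩ := (hP _).1 (hTP' _ hn2)
  have g1 : s * a + t * a' = 1 ∧ s * b + t * b' = 0 := by
    have h1 : T.symm (T n₁) = n₁ := T.symm_apply_apply _
    rw [e1, map_add, map_smul, map_smul, e3, e4] at h1
    have h2 := hind (s * a + t * a' - 1) (s * b + t * b') (by
      have h3 : (s * a + t * a' - 1) • n₁ + (s * b + t * b') • n₂ =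
        s • (a • n₁ + b • n₂) + t • (a' • n₁ + b' • n₂) - n₁ := by module
      rw [h3, h1, sub_self])
    exact ⟨by linarith [h2.1], h2.2⟩
  have g2 : s' * a + t' * a' = 0 ∧ s' * b + t' * b' = 1 := by
    have h1 : T.symm (T n₂) = n₂ := T.symm_apply_apply _
    rw [e2, map_add, map_smul, map_smul, e3, e4] at h1
    have h2 := hind (s' * a + t' * a') (s' * b + t' * b' - 1) (by
      have h3 : (s' * a + t' * a') • n₁ + (s' * b + t' * b' - 1) • n₂ =
        s' • (a • n₁ + b • n₂) + t' • (a' • n₁ + b' • n₂) - n₂ := by module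
      rw [h3, h1, sub_self])
    exact ⟨h2.1, by linarith [h2.2]⟩
  obtain ⟨g1a, g1b⟩ := g1
  obtain ⟨g2a, g2b⟩ := g2
  have z1 : s * b = 0 := by nlinarith [mul_nonneg hs hb, mul_nonneg ht hb']
  have z2 : t * b' = 0 := by nlinarith [mul_nonneg hs hb, mul_nonneg ht hb']
  have z3 : s' * a = 0 := by nlinarith [mul_nonneg hs' ha, mul_nonneg ht' ha']
  have z4 : t' * a' = 0 := by nlinarith [mul_nonneg hs' ha, mul_nonneg ht' ha']
  have hor : (t = 0 ∧ s' = 0) ∨ (s = 0 ∧ t' = 0) := by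
    by_cases h0 : s = 0
    · right
      refine ⟨h0, ?_⟩
      rw [h0, zero_mul, zero_add] at g1a
      have h3 : a' ≠ 0 := by rintro rfl; simp at g1a
      exact (mul_eq_zero.1 z4).resolve_right h3
    · left
      have h3 : b = 0 := (mul_eq_zero.1 z1).resolve_left h0
      rw [h3, mul_zero, zero_add] at g2b
      have h4 : b' ≠ 0 := by rintro rfl; simp at g2b
      have h5 : t' ≠ 0 := by rintro rfl; simp at g2b
      have h6 : t = 0 := (mul_eq_zero.1 z2).resolve_right h4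
      rw [h6, zero_mul, add_zero] at g1a
      have h7 : a ≠ 0 := by rintro rfl; simp at g1a
      exact ⟨h6, (mul_eq_zero.1 z3).resolve_right h7⟩
  have i12 : (inner ℝ n₁ n₂ : ℝ) = inner ℝ (D (T n₁)) (D (T n₂)) := by
    rw [← hRT, ← hRT, R.inner_map_map]
  have i11 : (inner ℝ n₁ n₁ : ℝ) = inner ℝ (D (T n₁)) (D (T n₁)) := by
    rw [← hRT, R.inner_map_map]
  have i22 : (inner ℝ n₂ n₂ : ℝ) = inner ℝ (D (T n₂)) (D (T n₂)) := by
    rw [← hRT, R.inner_map_map]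
  rw [i12, i11, i22, e1, e2]
  rcases hor with ⟨h3, h4⟩ | ⟨h3, h4⟩
  · rw [h3, h4, zero_smul, zero_smul, add_zero, zero_add, map_smul, map_smul]
    simp only [inner_smul_left, inner_smul_right, conj_trivial]
    ring
  · rw [h3, h4, zero_smul, zero_smul, add_zero, zero_add, map_smul, map_smul]
    simp only [inner_smul_left, inner_smul_right, conj_trivial]
    rw [real_inner_comm (D n₁) (D n₂)]
    ring

/-- vectors orthogonal to `(τ, b)` -/
noncomputable def NN (τ : ℂ) (b x ζ : ℝ) : V ℂ := mk (x • (Complex.I * τ) - ζ • (b • τ)) ζ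

theorem frame {τ : ℂ} (hτ : ‖τ‖ = 1) (ξ : ℂ) :
    ξ = (inner ℝ τ ξ : ℝ) • τ + (inner ℝ (Complex.I * τ) ξ : ℝ) • (Complex.I * τ) := by
  have h1 : τ.re * τ.re + τ.im * τ.im = 1 := by
    have := Complex.sq_norm τ
    rw [hτ, Complex.normSq_apply] at this
    linarith
  apply Complex.ext
  · simp [Complex.inner]
    linear_combination (-ξ.re) * h1
  · simp [Complex.inner]
    linear_combination (-ξ.im) * h1

theorem norm_I {τ : ℂ} (hτ : ‖τ‖ = 1) : ‖Complex.I * τ‖ = 1 := by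
  rw [norm_mul, Complex.norm_I, hτ, one_mul]

theorem inner_I (τ : ℂ) : inner ℝ τ (Complex.I * τ) = (0 : ℝ) := by
  simp [Complex.inner]
  ring

theorem NN_lin (τ : ℂ) (b x ζ x' ζ' s t : ℝ) :
    s • NN τ b x ζ + t • NN τ b x' ζ' = NN τ b (s * x + t * x') (s * ζ + t * ζ') := by
  refine ext_mk ?_ ?_
  · show s • (x • (Complex.I * τ) - ζ • (b • τ)) + t • (x' • (Complex.I * τ) - ζ' • (b • τ)) =
      (s * x + t * x') • (Complex.I * τ) - (s * ζ + t * ζ') • (b • τ)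
    module
  · rfl

theorem NN_inner {τ : ℂ} (b x ζ : ℝ) (w : V ℂ) :
    inner ℝ (NN τ b x ζ) w =
      x * inner ℝ (Complex.I * τ) w.fst + ζ * (w.snd - inner ℝ (b • τ) w.fst) := by
  rw [NN, inner_V, mk_fst, mk_snd, inner_sub_left, inner_smul_left, inner_smul_left]
  simp only [conj_trivial]
  ring

theorem NN_cont (τ : ℂ) (b : ℝ) : Continuous fun z : ℝ × ℝ => NN τ b z.1 z.2 := by
  unfold NN
  exact continuous_mk'.comp ((by fun_prop : Continuous fun z : ℝ × ℝ =>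
    ((z.1 • (Complex.I * τ) - z.2 • (b • τ), z.2) : ℂ × ℝ)))

/-- the inner products of stretched normals -/
theorem NN_dil_inner {τ : ℂ} (hτ : ‖τ‖ = 1) (b x ζ x' ζ' c : ℝ) :
    inner ℝ (mk (c • (NN τ b x ζ).fst) (NN τ b x ζ).snd)
      (mk (c • (NN τ b x' ζ').fst) (NN τ b x' ζ').snd) =
      c ^ 2 * (x * x' + b ^ 2 * (ζ * ζ')) + ζ * ζ' := by
  have h1 : inner ℝ τ τ = (1 : ℝ) := by rw [real_inner_self_eq_norm_sq, hτ, one_pow]
  have h2 : inner ℝ (Complex.I * τ) (Complex.I * τ) = (1 : ℝ) := by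
    rw [real_inner_self_eq_norm_sq, norm_I hτ, one_pow]
  have h3 := inner_I τ
  have h4 : inner ℝ (Complex.I * τ) τ = (0 : ℝ) := by rw [real_inner_comm]; exact h3
  rw [inner_V, mk_fst, mk_snd, mk_fst, mk_snd, inner_smul_left, inner_smul_right]
  show (starRingEnd ℝ) c * (c * inner ℝ (x • (Complex.I * τ) - ζ • (b • τ))
    (x' • (Complex.I * τ) - ζ' • (b • τ))) + ζ * ζ' = _
  simp only [inner_sub_left, inner_sub_right, inner_smul_left, inner_smul_right, conj_trivial,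
    h1, h2, h3, h4]
  ring

section Cyl

variable {f : ℂ → ℝ} {τ : ℂ} {b : ℝ}

/-- the slopes -/
def JJ (f : ℂ → ℝ) (τ : ℂ) (b : ℝ) : Set ℝ := {s | NN τ b (-s) 1 ∈ Pd f}

theorem Pd_NN (hτ : ‖τ‖ = 1) (hu : mk τ b ∈ coneK f) (hu' : -(mk τ b) ∈ coneK f) {n : V ℂ}
    (hn : n ∈ Pd f) : n = NN τ b (inner ℝ (Complex.I * τ) n.fst) n.snd := by
  have h1 := hn _ hu
  have h2 := hn _ hu'
  rw [inner_neg_right] at h2
  have h3 : inner ℝ n (mk τ b) = (0 : ℝ) := by linarith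
  rw [inner_V, mk_fst, mk_snd] at h3
  refine ext_mk ?_ rfl
  show n.fst = (inner ℝ (Complex.I * τ) n.fst : ℝ) • (Complex.I * τ) - n.snd • (b • τ)
  conv_lhs => rw [frame hτ n.fst]
  have h4 : (inner ℝ τ n.fst : ℝ) = -(n.snd * b) := by
    rw [real_inner_comm]
    linarith
  rw [h4, smul_smul, neg_smul]
  abel

theorem NN_scale {x ζ : ℝ} (hζ : 0 < ζ) : NN τ b x ζ ∈ Pd f ↔ -(x / ζ) ∈ JJ f τ b := by
  have e1 : ζ⁻¹ • NN τ b x ζ = NN τ b (x / ζ) 1 := by
    have := NN_lin τ b x ζ 0 0 ζ⁻¹ 0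
    rw [zero_smul, add_zero] at this
    rw [this]
    congr 1
    · field_simp
      ring
    · field_simp
      ring
  have e2 : ζ • NN τ b (x / ζ) 1 = NN τ b x ζ := by
    rw [← e1, smul_smul, mul_inv_cancel₀ hζ.ne', one_smul]
  constructor
  · intro h
    show NN τ b (-(-(x / ζ))) 1 ∈ Pd f
    rw [neg_neg, ← e1]
    exact Pd_smul _ h _ (by positivity)
  · intro h
    have h' : NN τ b (-(-(x / ζ))) 1 ∈ Pd f := h
    rw [neg_neg] at h'
    rw [← e2]
    exact Pd_smul _ h' _ hζ.le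

theorem JJ_closed : IsClosed (JJ f τ b) := by
  have h1 : Continuous fun s : ℝ => NN τ b (-s) 1 :=
    (NN_cont τ b).comp (by fun_prop : Continuous fun s : ℝ => ((-s, (1 : ℝ)) : ℝ × ℝ))
  exact (Pd_closed f).preimage h1

theorem JJ_conv : Convex ℝ (JJ f τ b) := by
  intro s hs t ht p q hp hq hpq
  have h1 := Pd_convex f hs ht hp hq hpq
  rw [NN_lin] at h1
  show NN τ b (-(p * s + q * t)) 1 ∈ Pd f
  have e1 : p * -s + q * -t = -(p * s + q * t) := by ring
  have e2 : p * 1 + q * 1 = 1 := by linarith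
  rwa [e1, e2] at h1

theorem JJ_nonempty (hf : Continuous f) (hτ : ‖τ‖ = 1) (hu : mk τ b ∈ coneK f)
    (hu' : -(mk τ b) ∈ coneK f) : (JJ f τ b).Nonempty := by
  by_contra hne
  rw [not_nonempty_iff_eq_empty] at hne
  have h1 : mk (0 : ℂ) (-1) ∈ coneK f := by
    rw [bidual hf]
    intro n hn
    have h2 : n.snd = 0 := by
      by_contra h3
      have h4 : 0 < n.snd := lt_of_le_of_ne (Pd_snd n hn) (Ne.symm h3)
      rw [Pd_NN hτ hu hu' hn, NN_scale h4, hne] at hn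
      exact hn
    rw [inner_V, mk_fst, mk_snd, inner_zero_right, h2]
    simp
  have := coneK_vertical _ h1
  norm_num at this

theorem mem_cone_iff (hf : Continuous f) (hτ : ‖τ‖ = 1) (hu : mk τ b ∈ coneK f)
    (hu' : -(mk τ b) ∈ coneK f) (w : V ℂ) : w ∈ coneK f ↔
      (∀ s ∈ JJ f τ b, 0 ≤ (w.snd - inner ℝ (b • τ) w.fst) -
        s * inner ℝ (Complex.I * τ) w.fst) ∧
      ∀ x, NN τ b x 0 ∈ Pd f → 0 ≤ x * inner ℝ (Complex.I * τ) w.fst := by
  rw [bidual hf]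
  constructor
  · intro h
    refine ⟨fun s hs => ?_, fun x hx => ?_⟩
    · have := h _ hs
      rw [NN_inner] at this
      linarith
    · have := h _ hx
      rw [NN_inner] at this
      linarith
  · rintro ⟨h1, h2⟩ n hn
    have h3 := Pd_NN hτ hu hu' hn
    rcases (Pd_snd n hn).eq_or_lt with h4 | h4
    · rw [← h4] at h3
      have h5 := h2 _ (h3 ▸ hn)
      rw [h3, NN_inner]
      linarith
    · have h5 : -(inner ℝ (Complex.I * τ) n.fst / n.snd) ∈ JJ f τ b := by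
        rw [← NN_scale h4, ← h3]
        exact hn
      have h6 := h1 _ h5
      rw [h3, NN_inner]
      have h7 := mul_nonneg h4.le h6
      have h8 : n.snd * (w.snd - inner ℝ (b • τ) w.fst -
          -(inner ℝ (Complex.I * τ) n.fst / n.snd) * inner ℝ (Complex.I * τ) w.fst) =
          inner ℝ (Complex.I * τ) n.fst * inner ℝ (Complex.I * τ) w.fst +
          n.snd * (w.snd - inner ℝ (b • τ) w.fst) := by
        field_simp
        ring
      rw [h8] at h7
      exact h7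

theorem recess {x : ℝ} (hx : NN τ b x 0 ∈ Pd f) {s : ℝ} (hs : s ∈ JJ f τ b) {t : ℝ}
    (ht : 0 ≤ t) : s - t * x ∈ JJ f τ b := by
  have h1 := Pd_add _ hs _ (Pd_smul _ hx t ht)
  have h2 := NN_lin τ b (-s) 1 x 0 1 t
  rw [one_smul] at h2
  rw [h2] at h1
  show NN τ b (-(s - t * x)) 1 ∈ Pd f
  convert h1 using 2 <;> ring

theorem recess_up (hb : ¬ BddAbove (JJ f τ b)) : NN τ b (-1) 0 ∈ Pd f := by
  have h1 : ∀ n : ℕ, ∃ s ∈ JJ f τ b, (n : ℝ) < s := by
    intro n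
    by_contra hcon
    push Not at hcon
    exact hb ⟨n, fun s hs => hcon s hs⟩
  choose s hs hns using h1
  have h2 : ∀ n : ℕ, NN τ b (-1) (s n)⁻¹ ∈ Pd f := by
    intro n
    have h3 : 0 < s n := lt_of_le_of_lt (Nat.cast_nonneg n) (hns n)
    rw [NN_scale (by positivity)]
    convert hs n using 1
    field_simp
  have h3 : Tendsto (fun n : ℕ => (s n)⁻¹) atTop (𝓝 0) := by
    apply tendsto_inv_atTop_zero.comp
    exact tendsto_atTop_mono (fun n => (hns n).le) tendsto_natCast_atTop_atTop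
  have h4 : Tendsto (fun n : ℕ => NN τ b (-1) (s n)⁻¹) atTop (𝓝 (NN τ b (-1) 0)) :=
    ((NN_cont τ b).tendsto ((-1 : ℝ), (0 : ℝ))).comp
      (Tendsto.prodMk_nhds (tendsto_const_nhds (x := (-1 : ℝ))) h3)
  exact (Pd_closed f).mem_of_tendsto h4 (Eventually.of_forall h2)

/-- slopes bounded below, not above -/
theorem half_case (hf : Continuous f) (hτ : ‖τ‖ = 1) (hu : mk τ b ∈ coneK f)
    (hu' : -(mk τ b) ∈ coneK f) (hbelow : BddBelow (JJ f τ b)) (habove : ¬ BddAbove (JJ f τ b))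
    {c : ℝ} (hc : 0 < c) (hc1 : c ≠ 1) {R : V ℂ ≃ₗᵢ[ℝ] V ℂ}
    (hR : ∀ n, n ∈ Pd f ↔ mk (c⁻¹ • (R n).fst) (R n).snd ∈ Pd f) :
    Shape f (b • τ) (-(Complex.I * τ)) := by
  have hne := JJ_nonempty hf hτ hu hu'
  set j := sInf (JJ f τ b) with hj
  have hjJ : j ∈ JJ f τ b := JJ_closed.csInf_mem hne hbelow
  have hup := recess_up habove
  have hle : ∀ x, NN τ b x 0 ∈ Pd f → x ≤ 0 := by
    intro x hx
    by_contra hcon
    push Not at hcon
    obtain ⟨m, hm⟩ := hbelow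
    have h1 := hm (recess hx hjJ (t := (|j - m| + 1) / x) (by positivity))
    rw [div_mul_cancel₀ _ hcon.ne'] at h1
    have h2 := le_abs_self (j - m)
    linarith
  have hP : ∀ n, n ∈ Pd f ↔ ∃ s t : ℝ, 0 ≤ s ∧ 0 ≤ t ∧
      n = s • NN τ b (-j) 1 + t • NN τ b (-1) 0 := by
    intro n
    constructor
    · intro hn
      have h1 := Pd_NN hτ hu hu' hn
      set x := (inner ℝ (Complex.I * τ) n.fst : ℝ) with hx
      refine ⟨n.snd, -x - n.snd * j, Pd_snd n hn, ?_, ?_⟩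
      · rcases (Pd_snd n hn).eq_or_lt with h2 | h2
        · rw [← h2] at h1 ⊢
          have := hle x (h1 ▸ hn)
          linarith
        · have h3 : -(x / n.snd) ∈ JJ f τ b := by
            rw [← NN_scale h2, ← h1]
            exact hn
          have h4 := csInf_le hbelow h3
          rw [← hj] at h4
          have h5 : n.snd * j ≤ n.snd * (-(x / n.snd)) := mul_le_mul_of_nonneg_left h4 h2.le
          have h6 : n.snd * (-(x / n.snd)) = -x := by field_simp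
          linarith
      · rw [NN_lin]
        conv_lhs => rw [h1]
        congr 1 <;> ring
    · rintro ⟨s, t, hs, ht, rfl⟩
      exact Pd_add _ (Pd_smul _ hjJ _ hs) _ (Pd_smul _ hup _ ht)
  have hind : ∀ s t : ℝ, s • NN τ b (-j) 1 + t • NN τ b (-1) 0 = 0 → s = 0 ∧ t = 0 := by
    intro s t h
    rw [NN_lin] at h
    have h1 : (NN τ b (s * -j + t * -1) (s * 1 + t * 0)).snd = 0 := by rw [h]; rfl
    have h2 : s * 1 + t * 0 = 0 := h1
    have h3 : s = 0 := by linarith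
    have h4 : inner ℝ (NN τ b (s * -j + t * -1) (s * 1 + t * 0)) (mk (Complex.I * τ) 0) =
        (0 : ℝ) := by rw [h, inner_zero_left]
    rw [NN_inner, mk_fst, mk_snd, real_inner_self_eq_norm_sq, norm_I hτ, inner_smul_left,
      inner_I] at h4
    rw [h3] at h4
    simp at h4
    exact ⟨h3, h4⟩
  have hw := wedge hP hind hc hR
  have q1 := NN_dil_inner hτ b (-j) 1 (-j) 1 c
  have q2 := NN_dil_inner hτ b (-j) 1 (-1) 0 c
  have q3 := NN_dil_inner hτ b (-1) 0 (-1) 0 c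
  have p1 := NN_dil_inner hτ b (-j) 1 (-j) 1 1
  have p2 := NN_dil_inner hτ b (-j) 1 (-1) 0 1
  have p3 := NN_dil_inner hτ b (-1) 0 (-1) 0 1
  rw [one_smul, one_smul, mk_eta, mk_eta] at p2
  rw [one_smul, mk_eta] at p1 p3
  rw [q1, q2, q3, p1, p2, p3] at hw
  have hj0 : j = 0 := by
    have h1 : j ^ 2 * (c ^ 2 * (1 - c ^ 2)) = 0 := by
      have h2 : (1 ^ 2 * (-j * -1 + b ^ 2 * (1 * 0)) + 1 * 0 : ℝ) = j := by ring
      have h3 : (c ^ 2 * (-1 * -1 + b ^ 2 * (0 * 0)) + 0 * 0 : ℝ) = c ^ 2 := by ring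
      linear_combination hw
    rcases mul_eq_zero.1 h1 with h2 | h2
    · exact pow_eq_zero_iff two_ne_zero |>.1 h2
    · exfalso
      rcases mul_eq_zero.1 h2 with h3 | h3
      · exact hc.ne' (pow_eq_zero_iff two_ne_zero |>.1 h3)
      · apply hc1
        have h4 : (c - 1) * (c + 1) = 0 := by linarith
        rcases mul_eq_zero.1 h4 with h5 | h5
        · linarith
        · linarith
  right
  intro w
  rw [mem_cone_iff hf hτ hu hu', inner_neg_left]
  set X := (inner ℝ (Complex.I * τ) w.fst : ℝ) with hX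
  constructor
  · rintro ⟨h1, h2⟩
    have h3 := h1 j hjJ
    rw [hj0] at h3
    have h4 := h2 (-1) hup
    exact ⟨by linarith, by linarith⟩
  · rintro ⟨h1, h2⟩
    refine ⟨fun s hs => ?_, fun x hx => ?_⟩
    · have h3 : 0 ≤ s := by
        have := csInf_le hbelow hs
        rw [← hj, hj0] at this
        exact this
      nlinarith [mul_nonneg h3 h2]
    · nlinarith [hle x hx]

end Cyl

end H72HR
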