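import Pool.Agent.E8helper72.HR.CaseA

/-!
# The end of the cylinder case
-/

set_option autoImplicit false

open MeasureTheory Set Filter Topology
open Pool.Agent.Results.MP_530d8e_an.HorizontallyRigid

namespace H72HR

/-- the two possible shapes of the cone of a cylinder -/
def Shape (f : ℂ → ℝ) (β e : ℂ) : Prop :=
  (∀ w : V ℂ, w ∈ coneK f ↔ 0 ≤ w.snd - inner ℝ β w.fst ∧ inner ℝ e w.fst = (0 : ℝ)) ∨
  (∀ w : V ℂ, w ∈ coneK f ↔ 0 ≤ w.snd - inner ℝ β w.fst ∧ 0 ≤ inner ℝ e w.fst)

theorem Shape.q {f : ℂ → ℝ} {β e : ℂ} (h : Shape f β e) :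
    ∃ q : ℝ → Prop, (q = (fun x => x = 0) ∨ q = (fun x => 0 ≤ x)) ∧
      ∀ w : V ℂ, w ∈ coneK f ↔ 0 ≤ w.snd - inner ℝ β w.fst ∧ q (inner ℝ e w.fst) := by
  rcases h with h | h
  · exact ⟨_, Or.inl rfl, h⟩
  · exact ⟨_, Or.inr rfl, h⟩

theorem shape_affine (hcyl : S_CYL) {f : ℂ → ℝ} (hf : Continuous f) {β e : ℂ} (he : ‖e‖ = 1)
    (hβe : inner ℝ β e = (0 : ℝ)) (hSh : Shape f β e)
    {c₁ c₂ : ℝ} (hc₁ : 0 < c₁) (hc₂ : 0 < c₂) (h1 : c₁ ≠ 1) (h2 : c₂ ≠ 1) (h12 : c₁ ≠ c₂)
    (hall : ∀ c : ℝ, c = c₁ ∨ c = c₂ → ∃ (φ : V ℂ ≃ᵢ V ℂ) (ε : ℝ) (R : V ℂ ≃ₗᵢ[ℝ] V ℂ),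
      (ε = 1 ∨ ε = -1) ∧ φ '' graph f = (graph fun x => f (c • x)) ∧
      (∀ p w, φ (p + w) = φ p + ε • R w) ∧
      ∀ w, w ∈ coneK f ↔ R w ∈ coneK fun x => f (c • x)) :
    ∃ (a : ℝ) (b : ℂ), ∀ x, f x = a + inner ℝ b x := by
  obtain ⟨q, hq, hK⟩ := hSh.q
  have hq0 : q 0 := by rcases hq with rfl | rfl <;> simp
  have hsplit : ∀ x, q x → q (-x) → x = 0 := by
    intro x h3 h4
    rcases hq with rfl | rfl
    · exact h3
    · have h3' : 0 ≤ x := h3
      have h4' : 0 ≤ -x := h4
      linarith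
  have hee : inner ℝ e e = (1 : ℝ) := by rw [real_inner_self_eq_norm_sq, he, one_pow]
  have heβ : inner ℝ e β = (0 : ℝ) := by rw [real_inner_comm]; exact hβe
  have hS : Slope f β := by
    refine ⟨fun w hw => ?_, ?_, ?_⟩
    · have h3 := (hK w).1 hw
      refine ⟨by linarith [h3.1], (hK _).2 ⟨?_, ?_⟩⟩
      · rw [mk_fst, mk_snd, sub_self]
      · rw [mk_fst]
        exact h3.2
    · refine (hK _).2 ⟨?_, ?_⟩
      · rw [mk_fst, mk_snd, sub_self]
      · rw [mk_fst, heβ]
        exact hq0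
    · refine (hK _).2 ⟨?_, ?_⟩
      · rw [mk_fst, mk_snd, inner_neg_right, sub_self]
      · rw [mk_fst, inner_neg_right, heβ, neg_zero]
        exact hq0
  set F : ℝ → ℝ := fun y => f (y • e) with hF
  have hFc : Continuous F := hf.comp (continuous_id.smul continuous_const)
  have hfF : ∀ x, f x = F (inner ℝ e x) + inner ℝ β x := by
    intro x
    set ξ := x - (inner ℝ e x : ℝ) • e with hξ
    have h3 : inner ℝ e ξ = (0 : ℝ) := by
      rw [hξ, inner_sub_right, inner_smul_right, hee]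
      ring
    have h4 : inner ℝ β ξ = (inner ℝ β x : ℝ) := by
      rw [hξ, inner_sub_right, inner_smul_right, hβe]
      ring
    have h5 : ξ ∈ lin f β := by
      refine ⟨(hK _).2 ⟨?_, ?_⟩, (hK _).2 ⟨?_, ?_⟩⟩
      · rw [mk_fst, mk_snd, sub_self]
      · rw [mk_fst, h3]
        exact hq0
      · rw [mk_fst, mk_snd, inner_neg_right, sub_self]
      · rw [mk_fst, inner_neg_right, h3, neg_zero]
        exact hq0
    have h6 := lin_add h5 ((inner ℝ e x : ℝ) • e)
    rw [hξ, add_sub_cancel, ← hξ, h4] at h6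
    exact h6
  set E0 : V ℂ := mk e 0 with hE0
  have hE0n : ‖E0‖ = 1 := by
    have h3 : ‖E0‖ ^ 2 = 1 := by
      rw [← real_inner_self_eq_norm_sq, hE0, inner_V, mk_fst, mk_snd, hee]
      ring
    have h4 := norm_nonneg E0
    nlinarith
  have hE0i : ∀ w : V ℂ, inner ℝ E0 w = (inner ℝ e w.fst : ℝ) := by
    intro w
    rw [hE0, inner_V, mk_fst, mk_snd, zero_mul, add_zero]
  have hE0N : ∀ c, inner ℝ E0 (un β c) = (0 : ℝ) := by
    intro c
    rw [inner_un, hE0, mk_fst, mk_snd, hβe]
    ring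
  have hKc : ∀ c : ℝ, 0 < c → ∀ w, w ∈ (coneK fun x => f (c • x)) ↔
      0 ≤ inner ℝ (un β c) w ∧ q (inner ℝ E0 w) := by
    intro c hc w
    have hs := sc_pos β c
    rw [coneK_scale hc, hK, mk_fst, mk_snd, inner_smul_right, inner_smul_right, hE0i,
      real_inner_comm w, inner_un]
    have hqc : q (c * inner ℝ e w.fst) ↔ q (inner ℝ e w.fst) := by
      rcases hq with rfl | rfl
      · show c * _ = (0 : ℝ) ↔ _ = (0 : ℝ)
        rw [mul_eq_zero]
        exact ⟨fun h => h.resolve_left hc.ne', Or.inr⟩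
      · show 0 ≤ c * _ ↔ (0 : ℝ) ≤ _
        exact mul_nonneg_iff_of_pos_left hc
    rw [hqc]
    have hin : (0 : ℝ) ≤ (sc β c)⁻¹ * (w.snd - c * inner ℝ β w.fst) ↔
        0 ≤ w.snd - c * inner ℝ β w.fst := mul_nonneg_iff_of_pos_left (by positivity)
    rw [hin]
  have hK1 : ∀ w, w ∈ coneK f ↔ 0 ≤ inner ℝ (un β 1) w ∧ q (inner ℝ E0 w) := by
    intro w
    have := hKc 1 one_pos w
    simpa using this
  have hrayN : ∀ c : ℝ, 0 < c → RaySummand (coneK fun x => f (c • x)) (un β c) := fun c hc =>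
    raySummand_un hS hc
  have hrayN1 : RaySummand (coneK f) (un β 1) := by
    have := hrayN 1 one_pos
    simpa using this
  have hrayE : q = (fun x => 0 ≤ x) → ∀ c : ℝ, 0 < c →
      RaySummand (coneK fun x => f (c • x)) E0 := by
    intro hq' c hc
    have hqi : ∀ x, q x ↔ 0 ≤ x := by intro x; rw [hq']
    have hNE : inner ℝ (un β c) E0 = (0 : ℝ) := by rw [real_inner_comm]; exact hE0N c
    have hEE : inner ℝ E0 E0 = (1 : ℝ) := by rw [real_inner_self_eq_norm_sq, hE0n, one_pow]
    refine ⟨hE0n, ?_, fun w hw => ?_⟩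
    · rw [hKc c hc, hNE, hqi, hEE]
      exact ⟨le_rfl, zero_le_one⟩
    · rw [hKc c hc, hqi] at hw
      refine ⟨hw.2, ?_⟩
      rw [hKc c hc, hqi, inner_sub_right, inner_smul_right, hNE, inner_sub_right, inner_smul_right,
        hEE]
      refine ⟨by linarith [hw.1], by linarith⟩
  -- the only ray summands
  have honly : ∀ c : ℝ, 0 < c → ∀ u, RaySummand (coneK fun x => f (c • x)) u →
      u = un β c ∨ (q = (fun x => 0 ≤ x) ∧ u = E0) := by
    intro c hc u hu
    by_contra hcon
    push Not at hcon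
    obtain ⟨k1, k2⟩ := hcon
    have hsm : ∀ w ∈ (coneK fun x => f (c • x)), ∀ t : ℝ, 0 ≤ t →
      t • w ∈ (coneK fun x => f (c • x)) := coneK_smul
    have j1 := raySummand_orthogonal hsm (hrayN c hc) hu (Ne.symm k1)
    have j2 : inner ℝ E0 u = (0 : ℝ) := by
      rcases hq with hq' | hq'
      · have := ((hKc c hc u).1 hu.2.1).2
        rw [hq'] at this
        exact this
      · exact raySummand_orthogonal hsm (hrayE hq' c hc) hu (Ne.symm (k2 hq'))
    have j3 : -u ∈ coneK fun x => f (c • x) := by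
      rw [hKc c hc, inner_neg_right, inner_neg_right, j1, j2, neg_zero]
      exact ⟨le_rfl, hq0⟩
    have j4 := (hu.2.2 _ j3).1
    rw [inner_neg_right, real_inner_self_eq_norm_sq, hu.1] at j4
    norm_num at j4
  have hB0 : 0 ≤ inner ℝ β β := real_inner_self_nonneg
  have hconst : ∀ x y, F x = F y := by
    refine hcyl F (inner ℝ β β) hFc hB0 c₁ c₂ hc₁ hc₂ h1 h2 h12 fun c hcc => ?_
    have hc : 0 < c := by rcases hcc with rfl | rfl <;> assumption
    obtain ⟨φ, ε, R, hε, hφ, hR, hKR⟩ := hall c hcc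
    have hs1 : sc β 1 = √(1 + inner ℝ β β) := by rw [sc, one_pow, one_mul]
    have hsc : sc β c = √(1 + c ^ 2 * inner ℝ β β) := rfl
    have hs1p := sc_pos β 1
    have hscp := sc_pos β c
    have hRray : ∀ u, RaySummand (coneK f) u → RaySummand (coneK fun x => f (c • x)) (R u) := by
      intro u hu
      have h3 : ∀ w, (w ∈ coneK fun x => f (c • x)) ↔ R.symm w ∈ coneK f := by
        intro w
        rw [hKR (R.symm w), R.apply_symm_apply]
      exact ray_symm (R := R.symm) h3 hu
    -- the point of the graph over `y e`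
    have hpt : ∀ y : ℝ, ∃ t n : ℝ, t = inner ℝ E0 (φ 0) + ε * inner ℝ E0 (R (mk (y • e) (F y))) ∧
        n = inner ℝ (un β c) (φ 0) + ε * inner ℝ (un β c) (R (mk (y • e) (F y))) ∧
        F (c * t) = sc β c * n := by
      intro y
      refine ⟨_, _, rfl, rfl, ?_⟩
      set p : V ℂ := mk (y • e) (F y) with hp
      have hpg : p ∈ graph f := rfl
      have h3 : φ p ∈ graph fun x => f (c • x) := by
        rw [← hφ]
        exact ⟨p, hpg, rfl⟩
      have h4 : φ p = φ 0 + ε • R p := by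
        rw [← hR, zero_add]
      have h5 : (φ p).snd = f (c • (φ p).fst) := h3
      rw [hfF, inner_smul_right, inner_smul_right] at h5
      have h6 : inner ℝ E0 (φ 0) + ε * inner ℝ E0 (R p) = (inner ℝ e (φ p).fst : ℝ) := by
        rw [← hE0i, h4, inner_add_right, inner_smul_right]
      have h7 : inner ℝ (un β c) (φ 0) + ε * inner ℝ (un β c) (R p) =
          (sc β c)⁻¹ * ((φ p).snd - c * inner ℝ β (φ p).fst) := by
        rw [← inner_un, h4, inner_add_left, inner_smul_left,
          real_inner_comm (un β c) (φ 0), real_inner_comm (un β c) (R p)]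
        simp
      rw [h6, h7, h5, add_sub_cancel_right, ← mul_assoc, mul_inv_cancel₀ hscp.ne', one_mul]
    have hN1 : ∀ y : ℝ, inner ℝ (un β 1) (mk (y • e) (F y)) = (sc β 1)⁻¹ * F y := by
      intro y
      rw [real_inner_comm, inner_un, mk_fst, mk_snd, inner_smul_right, hβe]
      ring
    have hE1 : ∀ y : ℝ, inner ℝ E0 (mk (y • e) (F y)) = y := by
      intro y
      rw [hE0i, mk_fst, inner_smul_right, hee, mul_one]
    rcases honly c hc _ (hRray _ hrayN1) with hRN | ⟨hq', hRN⟩
    · -- straight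
      left
      set z := R.symm E0 with hz
      have hRz : R z = E0 := R.apply_symm_apply _
      have hzN : inner ℝ (un β 1) z = (0 : ℝ) := by
        rw [← R.inner_map_map, hRN, hRz, real_inner_comm]
        exact hE0N c
      set z' := z - (inner ℝ E0 z : ℝ) • E0 with hz'
      have hEE : inner ℝ E0 E0 = (1 : ℝ) := by rw [real_inner_self_eq_norm_sq, hE0n, one_pow]
      have k1 : inner ℝ (un β 1) z' = (0 : ℝ) := by
        rw [hz', inner_sub_right, inner_smul_right, hzN, real_inner_comm E0, hE0N]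
        ring
      have k2 : inner ℝ E0 z' = (0 : ℝ) := by
        rw [hz', inner_sub_right, inner_smul_right, hEE]
        ring
      have k3 : z' ∈ coneK f := by rw [hK1, k1, k2]; exact ⟨le_rfl, hq0⟩
      have k4 : -z' ∈ coneK f := by
        rw [hK1, inner_neg_right, inner_neg_right, k1, k2, neg_zero]
        exact ⟨le_rfl, hq0⟩
      have k5 : inner ℝ E0 (R z') = (0 : ℝ) := by
        have k6 := ((hKc c hc _).1 ((hKR _).1 k3)).2
        have k7 := ((hKc c hc _).1 ((hKR _).1 k4)).2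
        rw [map_neg, inner_neg_right] at k7
        exact hsplit _ k6 k7
      have k8 : inner ℝ z z' = (0 : ℝ) := by
        rw [← R.inner_map_map, hRz]
        exact k5
      have k9 : z' = 0 := by
        rw [← inner_self_eq_zero (𝕜 := ℝ)]
        have : inner ℝ z' z' = (inner ℝ z z' : ℝ) - inner ℝ E0 z * inner ℝ E0 z' := by
          conv_lhs => rw [hz']
          rw [← hz', inner_sub_left, inner_smul_left]
          simp
        rw [this, k8, k2]
        ring
      have k10 : z = (inner ℝ E0 z : ℝ) • E0 := by rw [← sub_eq_zero]; exact k9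
      set δ : ℝ := inner ℝ E0 z with hδ
      have k11 : δ = 1 ∨ δ = -1 := by
        have h3 : ‖z‖ = 1 := by rw [hz, LinearIsometryEquiv.norm_map]; exact hE0n
        rw [k10, norm_smul, hE0n, mul_one, Real.norm_eq_abs] at h3
        exact eq_or_eq_neg_of_abs_eq h3
      have k12 : ∀ w, inner ℝ E0 (R w) = δ * (inner ℝ E0 w : ℝ) := by
        intro w
        rw [← hRz, R.inner_map_map]
        conv_lhs => rw [k10]
        rw [inner_smul_left, hRz]
        simp
      have k13 : ∀ w, inner ℝ (un β c) (R w) = (inner ℝ (un β 1) w : ℝ) := by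
        intro w
        rw [← hRN, R.inner_map_map]
      refine ⟨c * inner ℝ E0 (φ 0), sc β c * inner ℝ (un β c) (φ 0), ε * δ, ε, ?_, hε,
        fun y => ?_⟩
      · rcases hε with rfl | rfl <;> rcases k11 with k11 | k11 <;> rw [k11] <;> norm_num
      · obtain ⟨t, n, ht, hn, htn⟩ := hpt y
        rw [k12, hE1] at ht
        rw [k13, hN1] at hn
        have e1 : c * (ε * δ) * y + c * inner ℝ E0 (φ 0) = c * t := by rw [ht]; ring
        rw [e1, htn, hn, ← hs1, ← hsc]
        field_simp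
        ring
    · -- swapped
      right
      have hRE : R E0 = un β c := by
        have h3 : RaySummand (coneK f) E0 := by
          have := hrayE hq' 1 one_pos
          simpa using this
        rcases honly c hc _ (hRray _ h3) with h4 | ⟨_, h4⟩
        · exact h4
        · exfalso
          have h5 : un β 1 = E0 := R.injective (hRN.trans h4.symm)
          have h6 := hE0N 1
          rw [h5, real_inner_self_eq_norm_sq, hE0n] at h6
          norm_num at h6
      refine ⟨c * inner ℝ E0 (φ 0), sc β c * inner ℝ (un β c) (φ 0), ε, hε, fun y => ?_⟩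
      obtain ⟨t, n, ht, hn, htn⟩ := hpt y
      have k1 : inner ℝ E0 (R (mk (y • e) (F y))) = (sc β 1)⁻¹ * F y := by
        rw [← hRN, R.inner_map_map, hN1]
      have k2 : inner ℝ (un β c) (R (mk (y • e) (F y))) = y := by
        rw [← hRE, R.inner_map_map, hE1]
      rw [k1] at ht
      rw [k2] at hn
      have e1 : c * inner ℝ E0 (φ 0) + c * ε / √(1 + inner ℝ β β) * F y = c * t := by
        rw [ht, ← hs1]
        field_simp
      rw [e1, htn, hn, ← hsc]
      ring
  refine ⟨F 0, β, fun x => ?_⟩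
  rw [hfF x, hconst _ 0]

end H72HR
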