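import Pool.Agent.E8helper72.HR.Cone

/-!
# The case where the vertical direction lies in the dual cone
-/

set_option autoImplicit false

open MeasureTheory Set Filter Topology
open scoped Pointwise
open Pool.Agent.Results.MP_530d8e_an.HorizontallyRigid

namespace H72HR

theorem cone_eq {P Q : Set (V ℂ)} (hPc : IsClosed P) (hQc : IsClosed Q) (hPx : Convex ℝ P)
    (hPs : ∀ p ∈ P, ∀ s : ℝ, 0 ≤ s → s • p ∈ P) (hQs : ∀ p ∈ Q, ∀ s : ℝ, 0 ≤ s → s • p ∈ Q)
    (hQP : Q ⊆ P) (hint : (interior P).Nonempty)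
    (hvol : volume {p | p ∈ P ∧ ‖p‖ ≤ 1} = volume {p | p ∈ Q ∧ ‖p‖ ≤ 1}) : P ⊆ Q := by
  by_cases hsub : interior P ⊆ Q
  · have h1 : closure (interior P) = closure P :=
      hPx.closure_interior_eq_closure_of_nonempty_interior hint
    rw [hPc.closure_eq] at h1
    rw [← h1]
    exact closure_minimal hsub hQc
  · exfalso
    rw [Set.not_subset] at hsub
    obtain ⟨x, hxP, hxQ⟩ := hsub
    set t : ℝ := (‖x‖ + 1)⁻¹ with ht
    have htpos : 0 < t := by positivity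
    have hxP' : t • x ∈ interior P := by
      have h1 : IsOpen (t • interior P) := isOpen_interior.smul₀ htpos.ne'
      have h2 : t • interior P ⊆ P := by
        rintro _ ⟨y, hy, rfl⟩
        exact hPs y (interior_subset hy) t htpos.le
      exact interior_maximal h2 h1 ⟨x, hxP, rfl⟩
    have hxQ' : t • x ∉ Q := by
      intro h
      apply hxQ
      have := hQs _ h t⁻¹ (by positivity)
      rwa [smul_smul, inv_mul_cancel₀ htpos.ne', one_smul] at this
    have hnorm : ‖t • x‖ < 1 := by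
      rw [norm_smul, Real.norm_of_nonneg htpos.le, ht, inv_mul_lt_iff₀ (by positivity)]
      linarith
    set U : Set (V ℂ) := interior P ∩ Qᶜ ∩ Metric.ball 0 1 with hU
    have hUo : IsOpen U := (isOpen_interior.inter hQc.isOpen_compl).inter Metric.isOpen_ball
    have hUne : U.Nonempty := ⟨t • x, ⟨hxP', hxQ'⟩, by simpa using hnorm⟩
    have hUpos : 0 < volume U := hUo.measure_pos volume hUne
    have hdisj : Disjoint U {p | p ∈ Q ∧ ‖p‖ ≤ 1} := by
      rw [Set.disjoint_left]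
      rintro p ⟨⟨_, h2⟩, _⟩ ⟨h3, _⟩
      exact h2 h3
    have hQm : MeasurableSet {p : V ℂ | p ∈ Q ∧ ‖p‖ ≤ 1} :=
      (hQc.inter (isClosed_le continuous_norm continuous_const)).measurableSet
    have h1 : volume (U ∪ {p | p ∈ Q ∧ ‖p‖ ≤ 1}) ≤ volume {p | p ∈ P ∧ ‖p‖ ≤ 1} := by
      apply measure_mono
      rintro p (⟨⟨h2, _⟩, h3⟩ | ⟨h2, h3⟩)
      · refine ⟨interior_subset h2, ?_⟩
        rw [mem_ball_zero_iff] at h3
        exact h3.le
      · exact ⟨hQP h2, h3⟩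
    rw [measure_union hdisj hQm, hvol] at h1
    have hfin : volume {p : V ℂ | p ∈ Q ∧ ‖p‖ ≤ 1} ≠ ⊤ := by
      refine ne_top_of_le_ne_top (measure_closedBall_lt_top (μ := (volume : Measure (V ℂ)))
        (x := 0) (r := 1)).ne (measure_mono ?_)
      rintro p ⟨_, hp⟩
      simpa using hp
    have h3 : volume {p : V ℂ | p ∈ Q ∧ ‖p‖ ≤ 1} <
        volume U + volume {p : V ℂ | p ∈ Q ∧ ‖p‖ ≤ 1} := by
      rw [add_comm]
      exact ENNReal.lt_add_right hfin hUpos.ne'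
    exact absurd h1 (not_le.2 h3)

theorem vol_rel {P : Set (V ℂ)} {c : ℝ} {R : V ℂ ≃ₗᵢ[ℝ] V ℂ}
    (hR : ∀ n, n ∈ P ↔ mk (c⁻¹ • (R n).fst) (R n).snd ∈ P) :
    volume {p | p ∈ P ∧ ‖p‖ ≤ 1} =
      volume {p : V ℂ | mk (c⁻¹ • p.fst) p.snd ∈ P ∧ ‖p‖ ≤ 1} := by
  have h1 : {p | p ∈ P ∧ ‖p‖ ≤ 1} =
      R ⁻¹' {p : V ℂ | mk (c⁻¹ • p.fst) p.snd ∈ P ∧ ‖p‖ ≤ 1} := by
    ext p
    simp only [mem_ofPred_eq, mem_preimage, LinearIsometryEquiv.norm_map]
    rw [← hR]
  rw [h1]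
  exact (R.measurePreserving).measure_preimage_equiv (f := R.toMeasurableEquiv) _

theorem flat_of_rel {P : Set (V ℂ)} (hPc : IsClosed P) (hPx : Convex ℝ P)
    (hPs : ∀ p ∈ P, ∀ s : ℝ, 0 ≤ s → s • p ∈ P) (hP0 : ∀ p ∈ P, 0 ≤ p.snd) (he : e0 ∈ P)
    (hint : (interior P).Nonempty) {c : ℝ} (hc : 0 < c) (hc1 : c ≠ 1) {R : V ℂ ≃ₗᵢ[ℝ] V ℂ}
    (hR : ∀ n, n ∈ P ↔ mk (c⁻¹ • (R n).fst) (R n).snd ∈ P) :
    ∀ p ∈ P, mk p.fst 0 ∈ P := by
  have hvol := vol_rel hR
  have hPa : ∀ p ∈ P, ∀ q ∈ P, p + q ∈ P := by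
    intro p hp q hq
    have h1 := hPx hp hq (a := 1 / 2) (b := 1 / 2) (by norm_num) (by norm_num) (by norm_num)
    have h2 := hPs _ h1 2 (by norm_num)
    rw [smul_add, smul_smul, smul_smul] at h2
    norm_num at h2
    exact h2
  have hshrink : ∀ p ∈ P, ∀ d : ℝ, 0 ≤ d → d ≤ 1 → mk (d • p.fst) p.snd ∈ P := by
    intro p hp d hd0 hd1
    have h1 := hPa _ (hPs p hp d hd0) _ (hPs e0 he ((1 - d) * p.snd)
      (mul_nonneg (by linarith) (hP0 p hp)))
    convert h1 using 1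
    refine ext_mk ?_ ?_
    · show d • p.fst = d • p.fst + ((1 - d) * p.snd) • (0 : ℂ)
      rw [smul_zero, add_zero]
    · show p.snd = d * p.snd + (1 - d) * p.snd * 1
      ring
  set Q : Set (V ℂ) := {p : V ℂ | mk (c⁻¹ • p.fst) p.snd ∈ P} with hQ
  have hcont : Continuous fun p : V ℂ => mk (c⁻¹ • p.fst) p.snd :=
    continuous_mk'.comp (((continuous_const_smul c⁻¹).comp continuous_fst').prodMk continuous_snd')
  have hQc : IsClosed Q := hPc.preimage hcont
  have hQs : ∀ p ∈ Q, ∀ s : ℝ, 0 ≤ s → s • p ∈ Q := by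
    intro p hp s hs
    have h1 := hPs _ hp s hs
    show mk (c⁻¹ • (s • p.fst)) (s * p.snd) ∈ P
    rw [smul_comm]
    exact h1
  have hQx : Convex ℝ Q := by
    intro p hp q hq a b ha hb hab
    have h1 := hPx hp hq ha hb hab
    show mk (c⁻¹ • (a • p.fst + b • q.fst)) (a * p.snd + b * q.snd) ∈ P
    rw [smul_add, smul_comm c⁻¹ a, smul_comm c⁻¹ b]
    exact h1
  obtain ⟨d, hd, hdP⟩ : ∃ d : ℝ, 1 < d ∧ ∀ p ∈ P, mk (d • p.fst) p.snd ∈ P := by
    rcases lt_or_gt_of_ne hc1 with h | h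
    · refine ⟨c⁻¹, one_lt_inv_iff₀.2 ⟨hc, h⟩, ?_⟩
      have hQP : Q ⊆ P := by
        intro p hp
        have := hshrink _ hp c hc.le h.le
        rw [mk_fst, mk_snd, smul_smul, mul_inv_cancel₀ hc.ne', one_smul] at this
        exact this
      exact cone_eq hPc hQc hPx hPs hQs hQP hint hvol
    · refine ⟨c, h, ?_⟩
      have hPQ : P ⊆ Q := fun p hp => hshrink p hp c⁻¹ (by positivity) (inv_le_one_of_one_le₀ h.le)
      have hQP := cone_eq hQc hPc hQx hQs hPs hPQ (hint.mono (interior_mono hPQ)) hvol.symm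
      intro p hp
      apply hQP
      show mk (c⁻¹ • (c • p.fst)) p.snd ∈ P
      rw [smul_smul, inv_mul_cancel₀ hc.ne', one_smul]
      exact hp
  have hiter : ∀ k : ℕ, ∀ p ∈ P, mk (d ^ k • p.fst) p.snd ∈ P := by
    intro k
    induction k with
    | zero =>
      intro p hp
      rw [pow_zero, one_smul]
      exact hp
    | succ k ih =>
      intro p hp
      have := hdP _ (ih p hp)
      rw [mk_fst, mk_snd, smul_smul, ← pow_succ'] at this
      exact this
  intro p hp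
  have hlim : Tendsto (fun k : ℕ => mk p.fst ((d⁻¹) ^ k * p.snd)) atTop (𝓝 (mk p.fst 0)) := by
    have h1 : Tendsto (fun k : ℕ => (p.fst, (d⁻¹) ^ k * p.snd)) atTop (𝓝 (p.fst, 0)) := by
      refine Tendsto.prodMk_nhds tendsto_const_nhds ?_
      have := (tendsto_pow_atTop_nhds_zero_of_lt_one (r := d⁻¹) (by positivity)
        (inv_lt_one_of_one_lt₀ hd)).mul_const p.snd
      rwa [zero_mul] at this
    exact (continuous_mk'.tendsto (p.fst, (0 : ℝ))).comp h1
  refine hPc.mem_of_tendsto hlim (Eventually.of_forall fun k => ?_)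
  have h1 := hPs _ (hiter k p hp) ((d⁻¹) ^ k) (by positivity)
  rw [smul_mk, smul_smul, ← mul_pow, inv_mul_cancel₀ (by positivity), one_pow, one_smul] at h1
  exact h1

/-- the cone of `f` splits off the vertical direction -/
theorem slope_zero {f : ℂ → ℝ} (hf : Continuous f) (hne : volume (Pd f) ≠ 0)
    (he : e0 ∈ Pd f) {c : ℝ} (hc : 0 < c) (hc1 : c ≠ 1) {R : V ℂ ≃ₗᵢ[ℝ] V ℂ}
    (hK : ∀ w, w ∈ coneK f ↔ R w ∈ coneK fun x => f (c • x)) : Slope f 0 := by
  have hint : (interior (Pd f)).Nonempty := by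
    by_contra h1
    apply hne
    by_contra h
    have hpos : volume (Pd f) ≠ 0 := h
    have h2 := (Pd_convex f).addHaar_frontier (volume : Measure (V ℂ))
    rw [frontier, (Pd_closed f).closure_eq, not_nonempty_iff_eq_empty.1 h1, sdiff_empty] at h2
    exact hpos h2
  have h1 := flat_of_rel (Pd_closed f) (Pd_convex f) Pd_smul Pd_snd he hint hc hc1 (Pd_rel hc hK)
  refine ⟨fun w hw => ⟨?_, ?_⟩, ?_, ?_⟩
  · rw [inner_zero_left]
    have := he w hw
    rwa [← snd_eq_inner] at this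
  · rw [inner_zero_left, bidual hf]
    intro n hn
    have := h1 n hn w hw
    rw [inner_V, mk_fst, mk_snd, zero_mul, add_zero] at this
    rw [inner_V, mk_fst, mk_snd, mul_zero, add_zero]
    exact this
  · rw [inner_zero_left]
    exact zero_mem_coneK
  · rw [inner_zero_left, neg_zero, neg_zero]
    exact zero_mem_coneK

end H72HR
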