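import Pool.Agent.E8helper72.HR.Cyl0
import Pool.Agent.E8helper72.HR.Sec
import Pool.Agent.E8helper55.HR.Eq
import Pool.Agent.E8helper55.HR.Oct
import Pool.Agent.E8helper93.HR.Uni
import Pool.Agent.E8helper9.HR.Vol
import Pool.Agent.E8helper83.HR.Tv
import Pool.Agent.E8helper79.HR.Null
import Pool.Agent.E8helper44.HR.Cyl

/-!
# Functions on the plane which are horizontally rigid for two scales are affine
-/

set_option autoImplicit false

open MeasureTheory Set Filter Topology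
open Pool.Agent.Results.MP_530d8e_an.HorizontallyRigid

namespace H72HR

theorem s_null : S_NULL :=
  Pool.Agent.E8helper79.HR.t_NULL (Pool.Agent.E8helper93.HR.t_UNI H55HR.t_EQ)
    Pool.Agent.E8helper9.HR.t_VOL Pool.Agent.E8helper83.HR.t_TV

theorem main_complex {g : ℂ → ℝ} (hg : Continuous g) {c₁ c₂ : ℝ} (hc₁ : 0 < c₁) (hc₂ : 0 < c₂)
    (h1 : c₁ ≠ 1) (h2 : c₂ ≠ 1) (h12 : c₁ ≠ c₂)
    (h : ∀ c : ℝ, c = c₁ ∨ c = c₂ → ∃ φ : V ℂ ≃ᵢ V ℂ, φ '' graph g = graph fun x => g (c • x)) :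
    ∃ (a : ℝ) (β : ℂ), ∀ x, g x = a + inner ℝ β x := by
  have hall : ∀ c : ℝ, c = c₁ ∨ c = c₂ → ∃ (φ : V ℂ ≃ᵢ V ℂ) (ε : ℝ) (R : V ℂ ≃ₗᵢ[ℝ] V ℂ),
      (ε = 1 ∨ ε = -1) ∧ φ '' graph g = (graph fun x => g (c • x)) ∧
      (∀ p w, φ (p + w) = φ p + ε • R w) ∧
      ∀ w, w ∈ coneK g ↔ R w ∈ coneK fun x => g (c • x) := by
    intro c hc
    obtain ⟨φ, hφ⟩ := h c hc
    obtain ⟨ε, R, hε, hR, hK⟩ := exists_linear hg (hg.comp (continuous_const_smul c)) φ hφ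
    exact ⟨φ, ε, R, hε, hφ, hR, hK⟩
  have hPd : ∀ c : ℝ, c = c₁ ∨ c = c₂ → ∃ R : V ℂ ≃ₗᵢ[ℝ] V ℂ,
      ∀ n, n ∈ Pd g ↔ mk (c⁻¹ • (R n).fst) (R n).snd ∈ Pd g := by
    intro c hc
    have hc0 : 0 < c := by rcases hc with rfl | rfl <;> assumption
    obtain ⟨φ, ε, R, hε, hφ, hR, hK⟩ := hall c hc
    exact ⟨R, Pd_rel hc0 hK⟩
  by_cases hnull : volume (Pd g) = 0
  · rcases line_shape hg (line_of_null hg hnull) hc₁ hc₂ h1 h2 h12 hPd with h3 | ⟨β, e, he, hβe, hS⟩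
    · exact h3
    · exact shape_affine Pool.Agent.E8helper44.HR.t_CYL hg he hβe hS hc₁ hc₂ h1 h2 h12 hall
  · by_cases he : e0 ∈ Pd g
    · obtain ⟨φ₁, ε₁, R₁, hε₁, hφ₁, hR₁, hK₁⟩ := hall c₁ (Or.inl rfl)
      obtain ⟨φ₂, ε₂, R₂, hε₂, hφ₂, hR₂, hK₂⟩ := hall c₂ (Or.inr rfl)
      have hS := slope_zero hg hnull he hc₁ h1 hK₁
      have hconst := case_A H55HR.oct hg hS hc₁ hc₂ h1 h2 h12 hε₁ hε₂ hφ₁ hφ₂ hR₁ hR₂ hK₁ hK₂
      refine ⟨g 0, 0, fun x => ?_⟩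
      rw [inner_zero_left, add_zero]
      exact hconst x 0
    · exfalso
      apply hnull
      obtain ⟨R₁, hR₁⟩ := hPd c₁ (Or.inl rfl)
      obtain ⟨R₂, hR₂⟩ := hPd c₂ (Or.inr rfl)
      exact s_null (Pd g) (Pd_closed g) (Pd_convex g) Pd_smul Pd_snd he c₁ c₂ hc₁ hc₂ h1 h2 h12
        ⟨R₁, hR₁⟩ ⟨R₂, hR₂⟩

/-- the linear isometry `ℂ × ℝ → ℝ³` -/
noncomputable def toE3 : V ℂ ≃ₗᵢ[ℝ] EuclideanSpace ℝ (Fin 3) where
  toFun p := !₂[p.fst.re, p.fst.im, p.snd]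
  invFun q := mk ⟨q 0, q 1⟩ (q 2)
  map_add' p q := by
    ext i
    fin_cases i <;> simp
  map_smul' s p := by
    ext i
    fin_cases i <;> simp
  left_inv p := rfl
  right_inv q := by
    ext i
    fin_cases i <;> rfl
  norm_map' p := by
    have h1 : ‖p‖ ^ 2 = p.fst.re ^ 2 + p.fst.im ^ 2 + p.snd ^ 2 := by
      rw [← real_inner_self_eq_norm_sq, inner_V, real_inner_self_eq_norm_sq, Complex.sq_norm,
        Complex.normSq_apply]
      ring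
    have h2 : ‖(!₂[p.fst.re, p.fst.im, p.snd] : EuclideanSpace ℝ (Fin 3))‖ ^ 2 = ‖p‖ ^ 2 := by
      rw [EuclideanSpace.real_norm_sq_eq, Fin.sum_univ_three, h1]
      rfl
    exact (pow_left_inj₀ (norm_nonneg _) (norm_nonneg _) two_ne_zero).1 h2

theorem main_plane {f : ℝ × ℝ → ℝ} (hf : Continuous f) {c₁ c₂ : ℝ} (hc₁ : 0 < c₁) (hc₂ : 0 < c₂)
    (h1 : c₁ ≠ 1) (h2 : c₂ ≠ 1) (h12 : c₁ ≠ c₂)
    (h : ∀ c : ℝ, c = c₁ ∨ c = c₂ →
      ∃ φ : EuclideanSpace ℝ (Fin 3) ≃ᵢ EuclideanSpace ℝ (Fin 3),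
        φ '' {p | p 2 = f (p 0, p 1)} = {p | p 2 = f (c * p 0, c * p 1)}) :
    ∃ a b d : ℝ, ∀ x y, f (x, y) = a + b * x + d * y := by
  set g : ℂ → ℝ := fun z => f (z.re, z.im) with hg
  have hgc : Continuous g := hf.comp (Complex.continuous_re.prodMk Complex.continuous_im)
  have key : ∀ c : ℝ, c = c₁ ∨ c = c₂ →
      ∃ φ : V ℂ ≃ᵢ V ℂ, φ '' graph g = graph fun x => g (c • x) := by
    intro c hc
    obtain ⟨φ, hφ⟩ := h c hc
    set L := toE3.toIsometryEquiv with hL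
    refine ⟨(L.trans φ).trans L.symm, ?_⟩
    have hL0 : ∀ p : V ℂ, (L p) 0 = p.fst.re := fun p => rfl
    have hL1 : ∀ p : V ℂ, (L p) 1 = p.fst.im := fun p => rfl
    have hL2 : ∀ p : V ℂ, (L p) 2 = p.snd := fun p => rfl
    ext p
    constructor
    · rintro ⟨q, hq, rfl⟩
      have h3 : φ (L q) ∈ {p : EuclideanSpace ℝ (Fin 3) | p 2 = f (c * p 0, c * p 1)} := by
        rw [← hφ]
        refine ⟨L q, ?_, rfl⟩
        show (L q) 2 = f ((L q) 0, (L q) 1)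
        rw [hL0, hL1, hL2]
        exact hq
      set p := L.symm (φ (L q)) with hp
      have h4 : L p = φ (L q) := L.apply_symm_apply _
      rw [← h4] at h3
      have h5 : (L p) 2 = f (c * (L p) 0, c * (L p) 1) := h3
      rw [hL0, hL1, hL2] at h5
      show p.snd = f ((c • p.fst).re, (c • p.fst).im)
      rw [Complex.smul_re, Complex.smul_im]
      exact h5
    · intro hp
      have hp' : p.snd = f ((c • p.fst).re, (c • p.fst).im) := hp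
      rw [Complex.smul_re, Complex.smul_im] at hp'
      have h3 : L p ∈ {p : EuclideanSpace ℝ (Fin 3) | p 2 = f (c * p 0, c * p 1)} := by
        show (L p) 2 = f (c * (L p) 0, c * (L p) 1)
        rw [hL0, hL1, hL2]
        exact hp'
      rw [← hφ] at h3
      obtain ⟨q, hq, hqp⟩ := h3
      refine ⟨L.symm q, ?_, ?_⟩
      · have h4 : L (L.symm q) = q := L.apply_symm_apply _
        have h5 : q 2 = f (q 0, q 1) := hq
        rw [← h4, hL0, hL1, hL2] at h5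
        exact h5
      · show L.symm (φ (L (L.symm q))) = p
        rw [L.apply_symm_apply, hqp, L.symm_apply_apply]
  obtain ⟨a, β, hβ⟩ := main_complex hgc hc₁ hc₂ h1 h2 h12 key
  refine ⟨a, β.re, β.im, fun x y => ?_⟩
  have := hβ ⟨x, y⟩
  rw [show g ⟨x, y⟩ = f (x, y) from rfl] at this
  rw [this, Complex.inner]
  simp
  ring

end H72HR
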